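import Mathlib

/-!
# Primitive factorisation in the Selberg class: definitions and statements of the tasks

`Dat` is the analytic data of S16629 (polar part `m`, entire function `G = (s-1)^m F`, functional
equation data); `Cls a d` : the Dirichlet series with coefficients `a` belongs to the Selberg class of
S16629 and has functional equation data of degree `d = 2 ∑ lam`.
-/

set_option autoImplicit false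

namespace Pool.Agent.H336R4.PF

/-- continuation of finite order -/
def Cont (a : ℕ → ℂ) (m : ℕ) (G : ℂ → ℂ) : Prop :=
  Differentiable ℂ G ∧
  (∃ ρ C : ℝ, ∀ z : ℂ, ‖G z‖ ≤ C * Real.exp (‖z‖ ^ ρ)) ∧
  (∀ s : ℂ, 1 < s.re → G s = (s - 1) ^ m * LSeries a s)

/-- functional equation data -/
def FE (m : ℕ) (G : ℂ → ℂ) (Q : ℝ) (k : ℕ) (lam : Fin k → ℝ) (μ : Fin k → ℂ) (ω : ℂ) : Prop :=
  (∀ j, 0 < lam j) ∧ (∀ j, 0 ≤ (μ j).re) ∧ ‖ω‖ = 1 ∧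
  ∀ s : ℂ, 0 < s.re → s.re < 1 →
    (Q : ℂ) ^ s * (∏ j, Complex.Gamma ((lam j : ℂ) * s + μ j)) * (G s / (s - 1) ^ m) =
    ω * starRingEnd ℂ ((Q : ℂ) ^ (1 - starRingEnd ℂ s)
      * (∏ j, Complex.Gamma ((lam j : ℂ) * (1 - starRingEnd ℂ s) + μ j))
      * (G (1 - starRingEnd ℂ s) / ((1 - starRingEnd ℂ s) - 1) ^ m))

/-- Ramanujan bound -/
def Ram (a : ℕ → ℂ) : Prop := ∀ ε : ℝ, 0 < ε → ∃ C : ℝ, ∀ n : ℕ, 1 ≤ n → ‖a n‖ ≤ C * (n : ℝ) ^ ε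

/-- Euler product -/
def Eul (a : ℕ → ℂ) : Prop := ∃ b : ℕ → ℂ, (∀ n : ℕ, ¬ IsPrimePow n → b n = 0) ∧
        ∃ θ : ℝ, θ < 1 / 2 ∧ ∃ C : ℝ, (∀ n : ℕ, 1 ≤ n → ‖b n‖ ≤ C * (n : ℝ) ^ θ) ∧
        ∀ s : ℂ, 1 < s.re → LSeries a s = Complex.exp (LSeries b s)

/-- membership in the Selberg class, literally as in S16629 -/
def SS (a : ℕ → ℂ) : Prop :=
     (a 1 = 1 ∧
      (∀ ε : ℝ, 0 < ε → ∃ C : ℝ, ∀ n : ℕ, 1 ≤ n → ‖a n‖ ≤ C * (n : ℝ) ^ ε) ∧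
      (∃ m : ℕ, ∃ G : ℂ → ℂ, Differentiable ℂ G ∧
        (∃ ρ C : ℝ, ∀ z : ℂ, ‖G z‖ ≤ C * Real.exp (‖z‖ ^ ρ)) ∧
        (∀ s : ℂ, 1 < s.re → G s = (s - 1) ^ m * LSeries a s) ∧
        (∃ Q : ℝ, 0 < Q ∧ ∃ k : ℕ, ∃ lam : Fin k → ℝ, ∃ μ : Fin k → ℂ, ∃ ω : ℂ,
          (∀ j, 0 < lam j) ∧ (∀ j, 0 ≤ (μ j).re) ∧ ‖ω‖ = 1 ∧
          ∀ s : ℂ, 0 < s.re → s.re < 1 →
            (Q : ℂ) ^ s * (∏ j, Complex.Gamma ((lam j : ℂ) * s + μ j)) * (G s / (s - 1) ^ m) =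
            ω * starRingEnd ℂ ((Q : ℂ) ^ (1 - starRingEnd ℂ s)
              * (∏ j, Complex.Gamma ((lam j : ℂ) * (1 - starRingEnd ℂ s) + μ j))
              * (G (1 - starRingEnd ℂ s) / ((1 - starRingEnd ℂ s) - 1) ^ m)))) ∧
      (∃ b : ℕ → ℂ, (∀ n : ℕ, ¬ IsPrimePow n → b n = 0) ∧
        ∃ θ : ℝ, θ < 1 / 2 ∧ ∃ C : ℝ, (∀ n : ℕ, 1 ≤ n → ‖b n‖ ≤ C * (n : ℝ) ^ θ) ∧
        ∀ s : ℂ, 1 < s.re → LSeries a s = Complex.exp (LSeries b s)))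

/-- membership with a degree -/
def Cls (a : ℕ → ℂ) (d : ℝ) : Prop :=
  a 1 = 1 ∧ Ram a ∧ (∃ (m : ℕ) (G : ℂ → ℂ), Cont a m G ∧
    ∃ (Q : ℝ) (k : ℕ) (lam : Fin k → ℝ) (μ : Fin k → ℂ) (ω : ℂ), 0 < Q ∧ FE m G Q k lam μ ω ∧
      d = 2 * ∑ j, lam j) ∧ Eul a

/-- nontrivial: not the constant `1` -/
def NT (a : ℕ → ℂ) : Prop := ∃ n : ℕ, 2 ≤ n ∧ a n ≠ 0

/-- primitive, literally as in S16629 -/
def Prim (a : ℕ → ℂ) : Prop := SS a ∧ (∃ n : ℕ, 2 ≤ n ∧ a n ≠ 0) ∧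
      ∀ f g : ℕ → ℂ, SS f → SS g →
        (∀ s : ℂ, 1 < s.re → LSeries a s = LSeries f s * LSeries g s) →
        (∀ n : ℕ, 2 ≤ n → f n = 0) ∨ (∀ n : ℕ, 2 ≤ n → g n = 0)

/-- statement of S16629 -/
def Stm : Prop :=
  ∀ S : (ℕ → ℂ) → Prop,
   (∀ a : ℕ → ℂ, S a ↔
     (a 1 = 1 ∧
      (∀ ε : ℝ, 0 < ε → ∃ C : ℝ, ∀ n : ℕ, 1 ≤ n → ‖a n‖ ≤ C * (n : ℝ) ^ ε) ∧
      (∃ m : ℕ, ∃ G : ℂ → ℂ, Differentiable ℂ G ∧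
        (∃ ρ C : ℝ, ∀ z : ℂ, ‖G z‖ ≤ C * Real.exp (‖z‖ ^ ρ)) ∧
        (∀ s : ℂ, 1 < s.re → G s = (s - 1) ^ m * LSeries a s) ∧
        (∃ Q : ℝ, 0 < Q ∧ ∃ k : ℕ, ∃ lam : Fin k → ℝ, ∃ μ : Fin k → ℂ, ∃ ω : ℂ,
          (∀ j, 0 < lam j) ∧ (∀ j, 0 ≤ (μ j).re) ∧ ‖ω‖ = 1 ∧
          ∀ s : ℂ, 0 < s.re → s.re < 1 →
            (Q : ℂ) ^ s * (∏ j, Complex.Gamma ((lam j : ℂ) * s + μ j)) * (G s / (s - 1) ^ m) =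
            ω * starRingEnd ℂ ((Q : ℂ) ^ (1 - starRingEnd ℂ s)
              * (∏ j, Complex.Gamma ((lam j : ℂ) * (1 - starRingEnd ℂ s) + μ j))
              * (G (1 - starRingEnd ℂ s) / ((1 - starRingEnd ℂ s) - 1) ^ m)))) ∧
      (∃ b : ℕ → ℂ, (∀ n : ℕ, ¬ IsPrimePow n → b n = 0) ∧
        ∃ θ : ℝ, θ < 1 / 2 ∧ ∃ C : ℝ, (∀ n : ℕ, 1 ≤ n → ‖b n‖ ≤ C * (n : ℝ) ^ θ) ∧
        ∀ s : ℂ, 1 < s.re → LSeries a s = Complex.exp (LSeries b s)))) →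
   ∀ P : (ℕ → ℂ) → Prop,
   (∀ a : ℕ → ℂ, P a ↔ (S a ∧ (∃ n : ℕ, 2 ≤ n ∧ a n ≠ 0) ∧
      ∀ f g : ℕ → ℂ, S f → S g →
        (∀ s : ℂ, 1 < s.re → LSeries a s = LSeries f s * LSeries g s) →
        (∀ n : ℕ, 2 ≤ n → f n = 0) ∨ (∀ n : ℕ, 2 ≤ n → g n = 0))) →
   (∀ a : ℕ → ℂ, P a → ∃ C : ℝ, ∀ N : ℕ, 3 ≤ N →
      |(∑ p ∈ (Finset.Iic N).filter Nat.Prime, ‖a p‖ ^ 2 / (p : ℝ)) - Real.log (Real.log (N : ℝ))| ≤ C) ∧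
   (∀ a a' : ℕ → ℂ, P a → P a' → (∃ n : ℕ, 1 ≤ n ∧ a n ≠ a' n) →
      ∃ C : ℝ, ∀ N : ℕ,
        ‖∑ p ∈ (Finset.Iic N).filter Nat.Prime, a p * starRingEnd ℂ (a' p) / (p : ℂ)‖ ≤ C)

/-! ### Tasks -/

/-- TASK P1 (Gamma, monotonicity): from `GammaSeq`, `|Γ(w+iy)|/Γ(w) = lim ∏ (w+j)/|w+j+iy|`. -/
def TaskP1 : Prop := ∀ w₁ w₂ y : ℝ, 0 < w₁ → w₁ ≤ w₂ →
  ‖Complex.Gamma (w₁ + y * Complex.I)‖ * Real.Gamma w₂ ≤ ‖Complex.Gamma (w₂ + y * Complex.I)‖ * Real.Gamma w₁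

/-- TASK P2 (Gamma on the half line): reflection formula. -/
def TaskP2 : Prop := ∀ y : ℝ, ‖Complex.Gamma (1 / 2 + y * Complex.I)‖ ^ 2 = Real.pi / Real.cosh (Real.pi * y)

/-- the functional equation, extended to the whole plane with the entire functions `1/Γ` -/
def TaskFEX : Prop := ∀ (m : ℕ) (G : ℂ → ℂ), Differentiable ℂ G →
  ∀ (Q : ℝ) (k : ℕ) (lam : Fin k → ℝ) (μ : Fin k → ℂ) (ω : ℂ), 0 < Q → FE m G Q k lam μ ω → ∀ s : ℂ,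
    (Q : ℂ) ^ s * (∏ j, (Complex.Gamma ((lam j : ℂ) * (1 - s) + starRingEnd ℂ (μ j)))⁻¹) * (G s * s ^ m) =
    ω * ((-1) ^ m * (Q : ℂ) ^ (1 - s) * (∏ j, (Complex.Gamma ((lam j : ℂ) * s + μ j))⁻¹)
      * (starRingEnd ℂ (G (1 - starRingEnd ℂ s)) * (s - 1) ^ m))

/-- growth of `G` in vertical strips -/
def StripGrowth : Prop := ∀ (a : ℕ → ℂ), Ram a → ∀ (m : ℕ) (G : ℂ → ℂ), Cont a m G →
  ∀ (Q : ℝ) (k : ℕ) (lam : Fin k → ℝ) (μ : Fin k → ℂ) (ω : ℂ), 0 < Q → FE m G Q k lam μ ω →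
  ∀ K : ℝ, ∃ C A : ℝ, 0 ≤ C ∧ 0 ≤ A ∧ ∀ s : ℂ, |s.re| ≤ K →
    ‖G s‖ ≤ C * (1 + |s.im|) ^ A * Real.exp (Real.pi * (∑ j, lam j) * |s.im|)

/-- TASK Q (growth in vertical strips). -/
def TaskQ : Prop := TaskP1 → TaskP2 → TaskFEX → StripGrowth

/-- TASK R (Mellin-Barnes): for degree `< 1` the exponential series is entire up to the polar part. -/
def TaskR : Prop := TaskP1 → TaskP2 → TaskFEX → StripGrowth → ∀ (a : ℕ → ℂ), Ram a → ∀ (m : ℕ) (G : ℂ → ℂ), Cont a m G →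
  ∀ (Q : ℝ) (k : ℕ) (lam : Fin k → ℝ) (μ : Fin k → ℂ) (ω : ℂ), 0 < Q → FE m G Q k lam μ ω →
  2 * ∑ j, lam j < 1 →
  ∃ (H : ℂ → ℂ) (P : Polynomial ℂ), Differentiable ℂ H ∧
    ∀ x : ℝ, 0 < x → ∑' n : ℕ, (if n = 0 then 0 else a n) * Complex.exp (-(n * x)) =
      P.eval (Real.log x : ℂ) / x + H x

/-- TASK S (periodicity): an exponential series that is entire up to a polar part has
coefficients of rapid decay and no polar part. -/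
def TaskS : Prop := ∀ (a : ℕ → ℂ), Ram a → ∀ (H : ℂ → ℂ) (P : Polynomial ℂ), Differentiable ℂ H →
  (∀ x : ℝ, 0 < x → ∑' n : ℕ, (if n = 0 then 0 else a n) * Complex.exp (-(n * x)) =
      P.eval (Real.log x : ℂ) / x + H x) →
  P = 0 ∧ ∀ R : ℝ, 0 < R → ∃ C : ℝ, ∀ n : ℕ, 1 ≤ n → ‖a n‖ ≤ C * R ^ n

/-- TASK T (rapidly decreasing coefficients): degree zero and trivial. -/
def TaskT : Prop := TaskP1 → TaskP2 → TaskFEX → ∀ (a : ℕ → ℂ) (d : ℝ), Cls a d →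
  (∀ R : ℝ, 0 < R → ∃ C : ℝ, ∀ n : ℕ, 1 ≤ n → ‖a n‖ ≤ C * R ^ n) → ∀ n : ℕ, 2 ≤ n → a n = 0

/-- TASK U (additivity of the degree). -/
def TaskU : Prop := TaskP1 → TaskP2 → TaskFEX → ∀ (a f g : ℕ → ℂ) (d d₁ d₂ : ℝ), Cls a d → Cls f d₁ → Cls g d₂ →
  (∀ s : ℂ, 1 < s.re → LSeries a s = LSeries f s * LSeries g s) → d = d₁ + d₂

/-- no element of degree `< 1` besides `1` -/
def DegGap : Prop := ∀ (a : ℕ → ℂ) (d : ℝ), Cls a d → d < 1 → ∀ n : ℕ, 2 ≤ n → a n = 0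

/-- additivity -/
def DegAdd : Prop := ∀ (a f g : ℕ → ℂ) (d d₁ d₂ : ℝ), Cls a d → Cls f d₁ → Cls g d₂ →
  (∀ s : ℂ, 1 < s.re → LSeries a s = LSeries f s * LSeries g s) → d = d₁ + d₂

/-- TASK W (wrapper): a nontrivial element with bounded prime square sum. -/
def Elt : Prop :=
  ∃ a : ℕ → ℂ, SS a ∧ NT a ∧ ∃ C : ℝ, ∀ N : ℕ, ∑ p ∈ (Finset.Iic N).filter Nat.Prime, ‖a p‖ ^ 2 / (p : ℝ) ≤ C

/-- TASK V (factorisation and contradiction). -/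
def TaskV : Prop := DegGap → DegAdd → Elt → ¬ Stm

end Pool.Agent.H336R4.PF
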