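import Pool.Agent.H336R4.PF.R5
import Pool.Agent.H853R3.TaskPFFEX
import Pool.Agent.H394R3.PF.TaskPFQ
import Pool.Agent.H886R3.TaskPFS
import Pool.Agent.H180R3.TaskPFT
import Pool.Agent.H5R3.TaskPFU
import Pool.Agent.H177R3.TaskPFV
import Pool.Agent.H394R3.PF.TaskPFW

/-!
# Degree gap, additivity, and the conditional disproof
-/

namespace Pool.Agent.H336R4.PF

theorem fex : TaskFEX := Pool.Agent.H853R3.FEX.taskFEX

theorem stripGrowth : StripGrowth := Pool.Agent.H394R3.PFQ.taskQ taskP1 taskP2 fex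

theorem degGap : DegGap := by
  intro a d ha hd
  have ha' := ha
  obtain ⟨-, hram, ⟨m, G, hG, Q, k, lam, μ, ω, hQ, hFE, hdd⟩, -⟩ := ha
  have hlt : 2 * ∑ j, lam j < 1 := by rw [← hdd]; exact hd
  obtain ⟨H, P, hH, hrel⟩ := taskR taskP1 taskP2 fex stripGrowth a hram m G hG Q k lam μ ω hQ hFE hlt
  obtain ⟨-, hdecay⟩ := Pool.Agent.H886R3.PFS.taskS a hram H P hH hrel
  exact Pool.Agent.H180R3.PFT.taskT taskP1 taskP2 fex a d ha' hdecay

theorem degAdd : DegAdd := Pool.Agent.H5R3.PFU.taskU taskP1 taskP2 fex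

theorem main (h : Elt) : ¬ Stm := Pool.Agent.H177R3.PFV.taskV degGap degAdd h

end Pool.Agent.H336R4.PF
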