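import Pool.Agent.H336R4.PF.Defs
import Pool.Agent.H336R4.Task469F

/-!
# Shifting vertical lines across a pole
-/

open MeasureTheory Set Filter Topology Complex

namespace Pool.Agent.H336R4.PF

lemma integrable_exp_abs {δ : ℝ} (hδ : 0 < δ) : Integrable fun t : ℝ => Real.exp (-δ * |t|) := by
  have h1 : IntegrableOn (fun t : ℝ => Real.exp (-δ * |t|)) (Ioi 0) := by
    refine (integrableOn_exp_mul_Ioi (a := -δ) (by linarith) 0).congr_fun ?_ measurableSet_Ioi
    intro t ht
    have ht : 0 < t := ht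
    simp only [abs_of_pos ht]
  have h2 : IntegrableOn (fun t : ℝ => Real.exp (-δ * |t|)) (Iic 0) := by
    refine (integrableOn_exp_mul_Iic (a := δ) hδ 0).congr_fun ?_ measurableSet_Iic
    intro t ht
    have ht : t ≤ 0 := ht
    simp only [abs_of_nonpos ht]
    congr 1; ring
  have := h2.union h1
  rwa [Iic_union_Ioi, integrableOn_univ] at this

lemma vline_re (c t : ℝ) : ((c : ℂ) + t * I).re = c := by simp
lemma vline_im (c t : ℝ) : ((c : ℂ) + t * I).im = t := by simp

lemma vint {g : ℂ → ℂ} {a b C δ : ℝ} (hδ : 0 < δ)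
    (hd : ∀ z : ℂ, a ≤ z.re → z.re ≤ b → DifferentiableAt ℂ g z)
    (hb : ∀ z : ℂ, a ≤ z.re → z.re ≤ b → ‖g z‖ ≤ C * Real.exp (-δ * |z.im|)) {c : ℝ}
    (hac : a ≤ c) (hcb : c ≤ b) : Integrable (fun t : ℝ => g (c + t * I)) := by
  have hcont : Continuous (fun t : ℝ => g (c + t * I)) := by
    rw [continuous_iff_continuousAt]
    intro t
    have h1 : ContinuousAt g ((c : ℂ) + t * I) :=
      (hd _ (by rw [vline_re]; exact hac) (by rw [vline_re]; exact hcb)).continuousAt
    have h2 : ContinuousAt (fun t : ℝ => (c : ℂ) + t * I) t := by fun_prop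
    exact ContinuousAt.comp (g := g) (f := fun t : ℝ => (c : ℂ) + t * I) h1 h2
  refine Integrable.mono' ((integrable_exp_abs hδ).const_mul C)
    hcont.aestronglyMeasurable (Eventually.of_forall fun t => ?_)
  have h3 := hb ((c : ℂ) + t * I) (by rw [vline_re]; exact hac) (by rw [vline_re]; exact hcb)
  rwa [vline_im] at h3

lemma vshift_vert {g : ℂ → ℂ} {a b C δ : ℝ} (hab : a ≤ b)
    (hb : ∀ z : ℂ, a ≤ z.re → z.re ≤ b → ‖g z‖ ≤ C * Real.exp (-δ * |z.im|)) (T : ℝ) :
    ‖∫ x in a..b, g (x + T * I)‖ ≤ C * Real.exp (-δ * |T|) * |b - a| := by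
  apply intervalIntegral.norm_integral_le_of_norm_le_const
  intro x hx
  rw [uIoc_of_le hab] at hx
  have h3 := hb ((x : ℂ) + T * I) (by rw [vline_re]; exact hx.1.le) (by rw [vline_re]; exact hx.2)
  rwa [vline_im] at h3

/-- Shift of a vertical line of integration. -/
theorem vshift {g : ℂ → ℂ} {a b C δ : ℝ} (hδ : 0 < δ) (hab : a ≤ b)
    (hd : ∀ z : ℂ, a ≤ z.re → z.re ≤ b → DifferentiableAt ℂ g z)
    (hb : ∀ z : ℂ, a ≤ z.re → z.re ≤ b → ‖g z‖ ≤ C * Real.exp (-δ * |z.im|)) :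
    ∫ t : ℝ, g (a + t * I) = ∫ t : ℝ, g (b + t * I) := by
  have hrect : ∀ T : ℝ, (∫ x in a..b, g (x + ((-T : ℝ) : ℂ) * I)) - (∫ x in a..b, g (x + T * I)) +
      I • (∫ y in (-T)..T, g (b + y * I)) - I • (∫ y in (-T)..T, g (a + y * I)) = 0 := by
    intro T
    have h1 := Complex.integral_boundary_rect_eq_zero_of_differentiableOn g
      ((a : ℂ) + ((-T : ℝ) : ℂ) * I) ((b : ℂ) + T * I) (by
        intro z hz
        have h2 := hz.1
        simp only [mem_preimage, Complex.add_re, Complex.ofReal_re, Complex.mul_re, Complex.I_re,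
          Complex.ofReal_im, Complex.I_im, mul_zero, mul_one, sub_self, add_zero] at h2
        rw [uIcc_of_le hab] at h2
        exact (hd z h2.1 h2.2).differentiableWithinAt)
    simpa using h1
  have hA : Tendsto (fun T : ℝ => ∫ x in (-T)..T, g (a + x * I)) atTop
      (𝓝 (∫ t : ℝ, g (a + t * I))) :=
    intervalIntegral_tendsto_integral (vint hδ hd hb le_rfl hab)
      tendsto_neg_atTop_atBot tendsto_id
  have hB : Tendsto (fun T : ℝ => ∫ x in (-T)..T, g (b + x * I)) atTop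
      (𝓝 (∫ t : ℝ, g (b + t * I))) :=
    intervalIntegral_tendsto_integral (vint hδ hd hb hab le_rfl)
      tendsto_neg_atTop_atBot tendsto_id
  have hE : Tendsto (fun T : ℝ => C * Real.exp (-δ * |T|) * |b - a|) atTop (𝓝 0) := by
    have h1 : Tendsto (fun T : ℝ => -δ * |T|) atTop atBot :=
      (tendsto_abs_atTop_atTop).const_mul_atTop_of_neg (by linarith)
    have h2 := Real.tendsto_exp_atBot.comp h1
    have h3 := (h2.const_mul C).mul_const |b - a|
    simpa using h3
  have hV1 : Tendsto (fun T : ℝ => (∫ x in a..b, g (x + T * I))) atTop (𝓝 0) :=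
    squeeze_zero_norm (fun T => vshift_vert hab hb T) hE
  have hV2 : Tendsto (fun T : ℝ => (∫ x in a..b, g (x + ((-T : ℝ) : ℂ) * I))) atTop (𝓝 0) := by
    apply squeeze_zero_norm (fun T => ?_) hE
    have h1 := vshift_vert hab hb (-T)
    rw [abs_neg] at h1
    exact h1
  have hlim := ((hV2.sub hV1).add (hB.const_smul I)).sub (hA.const_smul I)
  simp only [hrect] at hlim
  have h0 := tendsto_nhds_unique hlim tendsto_const_nhds
  have h1 : I • (∫ t : ℝ, g (b + t * I)) = I • (∫ t : ℝ, g (a + t * I)) := by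
    rw [sub_zero, zero_add, sub_eq_zero] at h0
    exact h0
  have h2 := congrArg (fun z => (-I) * z) h1
  simp only [smul_eq_mul, ← mul_assoc] at h2
  have h3 : -I * I = 1 := by rw [neg_mul, I_mul_I, neg_neg]
  rw [h3, one_mul, one_mul] at h2
  exact h2.symm

/-- the line integral with an exponential and a pole of order `i` at distance `h` -/
noncomputable def LI (g : ℂ → ℂ) (p h : ℝ) (i : ℕ) (u : ℝ) : ℂ :=
  ∫ t : ℝ, g (((p + h : ℝ) : ℂ) + t * I) * cexp (-((h : ℂ) + t * I) * u) / ((h : ℂ) + t * I) ^ i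

lemma norm_hI {h t : ℝ} : |h| ≤ ‖(h : ℂ) + t * I‖ := by
  have := Complex.abs_re_le_norm ((h : ℂ) + t * I)
  simpa using this

lemma hI_ne {h t : ℝ} (hh : h ≠ 0) : (h : ℂ) + t * I ≠ 0 := by
  rw [← norm_pos_iff]
  exact (abs_pos.2 hh).trans_le norm_hI

lemma norm_exp_hI {h t u : ℝ} : ‖cexp (-((h : ℂ) + t * I) * u)‖ = Real.exp (-h * u) := by
  rw [Complex.norm_exp]
  congr 1
  simp

lemma LI_bound {g : ℂ → ℂ} {p h C δ : ℝ} (hh : h ≠ 0)
    (hb : ∀ t : ℝ, ‖g (((p + h : ℝ) : ℂ) + t * I)‖ ≤ C * Real.exp (-δ * |t|)) (i : ℕ) (u t : ℝ) :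
    ‖g (((p + h : ℝ) : ℂ) + t * I) * cexp (-((h : ℂ) + t * I) * u) / ((h : ℂ) + t * I) ^ i‖ ≤
      (C * (Real.exp (-h * u) * (|h|⁻¹) ^ i)) * Real.exp (-δ * |t|) := by
  rw [norm_div, norm_mul, norm_exp_hI, norm_pow]
  have h0 : 0 < |h| := abs_pos.2 hh
  have h1 : |h| ^ i ≤ ‖(h : ℂ) + t * I‖ ^ i := pow_le_pow_left₀ h0.le norm_hI i
  have h2 := hb t
  calc ‖g (((p + h : ℝ) : ℂ) + t * I)‖ * Real.exp (-h * u) / ‖(h : ℂ) + t * I‖ ^ i
      ≤ ‖g (((p + h : ℝ) : ℂ) + t * I)‖ * Real.exp (-h * u) / |h| ^ i := by gcongr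
    _ ≤ C * Real.exp (-δ * |t|) * Real.exp (-h * u) / |h| ^ i := by gcongr
    _ = _ := by rw [inv_pow]; ring

lemma LI_cont {g : ℂ → ℂ} {p h : ℝ} (hh : h ≠ 0)
    (hd : ∀ t : ℝ, DifferentiableAt ℂ g (((p + h : ℝ) : ℂ) + t * I)) (i : ℕ) (u : ℝ) :
    Continuous fun t : ℝ => g (((p + h : ℝ) : ℂ) + t * I) * cexp (-((h : ℂ) + t * I) * u) / ((h : ℂ) + t * I) ^ i := by
  have h1 : Continuous fun t : ℝ => g (((p + h : ℝ) : ℂ) + t * I) := by
    rw [continuous_iff_continuousAt]
    intro t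
    have h2 : ContinuousAt (fun t : ℝ => (((p + h : ℝ) : ℂ) + t * I)) t := by fun_prop
    exact ContinuousAt.comp (g := g) (f := fun t : ℝ => (((p + h : ℝ) : ℂ) + t * I)) (hd t).continuousAt h2
  apply Continuous.div
  · exact h1.mul (by fun_prop)
  · fun_prop
  · intro t
    exact pow_ne_zero _ (hI_ne hh)

lemma LI_integrable {g : ℂ → ℂ} {p h C δ : ℝ} (hδ : 0 < δ) (hh : h ≠ 0)
    (hd : ∀ t : ℝ, DifferentiableAt ℂ g (((p + h : ℝ) : ℂ) + t * I))
    (hb : ∀ t : ℝ, ‖g (((p + h : ℝ) : ℂ) + t * I)‖ ≤ C * Real.exp (-δ * |t|)) (i : ℕ) (u : ℝ) :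
    Integrable fun t : ℝ => g (((p + h : ℝ) : ℂ) + t * I) * cexp (-((h : ℂ) + t * I) * u) / ((h : ℂ) + t * I) ^ i :=
  Integrable.mono' ((integrable_exp_abs hδ).const_mul (C * (Real.exp (-h * u) * (|h|⁻¹) ^ i)))
    (LI_cont hh hd i u).aestronglyMeasurable (Eventually.of_forall fun t => LI_bound hh hb i u t)

lemma LI_deriv {g : ℂ → ℂ} {p h C δ : ℝ} (hδ : 0 < δ) (hh : h ≠ 0)
    (hd : ∀ t : ℝ, DifferentiableAt ℂ g (((p + h : ℝ) : ℂ) + t * I))
    (hb : ∀ t : ℝ, ‖g (((p + h : ℝ) : ℂ) + t * I)‖ ≤ C * Real.exp (-δ * |t|)) (i : ℕ) (u : ℝ) :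
    HasDerivAt (LI g p h (i+1)) (-(LI g p h i u)) u := by
  have hC : 0 ≤ C := by
    have := (norm_nonneg _).trans (hb 0)
    simpa using this
  have key := hasDerivAt_integral_of_dominated_loc_of_deriv_le (μ := volume) (𝕜 := ℝ)
    (F := fun (u : ℝ) (t : ℝ) => g (((p + h : ℝ) : ℂ) + t * I) * cexp (-((h : ℂ) + t * I) * u) / ((h : ℂ) + t * I) ^ (i+1))
    (F' := fun (u : ℝ) (t : ℝ) => -(g (((p + h : ℝ) : ℂ) + t * I) * cexp (-((h : ℂ) + t * I) * u) / ((h : ℂ) + t * I) ^ i))
    (x₀ := u) (s := Metric.ball u 1)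
    (bound := fun t => (C * (Real.exp (|h| * (|u| + 1)) * (|h|⁻¹) ^ i)) * Real.exp (-δ * |t|))
    (Metric.ball_mem_nhds u one_pos)
    (Eventually.of_forall fun x => (LI_cont hh hd (i+1) x).aestronglyMeasurable)
    (LI_integrable hδ hh hd hb (i+1) u)
    ((LI_cont hh hd i u).neg.aestronglyMeasurable)
    (Eventually.of_forall fun t x hx => ?_)
    ((integrable_exp_abs hδ).const_mul _)
    (Eventually.of_forall fun t x hx => ?_)
  · have h1 := key.2
    have e : ∫ t : ℝ, -(g (((p + h : ℝ) : ℂ) + t * I) * cexp (-((h : ℂ) + t * I) * u) / ((h : ℂ) + t * I) ^ i) = -(LI g p h i u) := by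
      rw [integral_neg]; rfl
    rw [e] at h1
    exact h1
  · rw [norm_neg]
    refine (LI_bound hh hb i x t).trans ?_
    apply mul_le_mul_of_nonneg_right _ (Real.exp_pos _).le
    apply mul_le_mul_of_nonneg_left _ hC
    apply mul_le_mul_of_nonneg_right _ (by positivity)
    apply Real.exp_le_exp.2
    have h1 : |x| ≤ |u| + 1 := by
      rw [Metric.mem_ball, Real.dist_eq] at hx
      have := abs_sub_abs_le_abs_sub x u
      linarith
    calc -h * x ≤ |(-h) * x| := le_abs_self _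
      _ = |h| * |x| := by rw [abs_mul, abs_neg]
      _ ≤ _ := by gcongr
  · have hne := hI_ne (h := h) (t := t) hh
    have h1 : HasDerivAt (fun x : ℝ => cexp (-((h : ℂ) + t * I) * x)) (cexp (-((h : ℂ) + t * I) * x) * (-((h : ℂ) + t * I))) x := by
      have h0 : HasDerivAt (fun x : ℝ => -((h : ℂ) + t * I) * (x : ℂ)) (-((h : ℂ) + t * I) * 1) x :=
        (Complex.ofRealCLM.hasDerivAt (x := x)).const_mul _
      rw [mul_one] at h0
      exact h0.cexp
    have h2 := (h1.const_mul (g (((p + h : ℝ) : ℂ) + t * I))).div_const (((h : ℂ) + t * I) ^ (i+1))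
    convert! h2 using 1
    rw [pow_succ]
    field_simp

/-- Crossing a pole of order `i`: the difference of the line integrals is a polynomial. -/
theorem cross {g : ℂ → ℂ} {p h C δ : ℝ} (hδ : 0 < δ) (hh : 0 < h)
    (hd : ∀ z : ℂ, p - h ≤ z.re → z.re ≤ p + h → DifferentiableAt ℂ g z)
    (hb : ∀ z : ℂ, p - h ≤ z.re → z.re ≤ p + h → ‖g z‖ ≤ C * Real.exp (-δ * |z.im|)) (i : ℕ) :
    ∃ P : Polynomial ℂ, (i ≤ 1 → ∃ c : ℂ, P = Polynomial.C c) ∧ ∀ u : ℝ, LI g p h i u - LI g p (-h) i u = P.eval (u : ℂ) := by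
  have hd1 : ∀ t : ℝ, DifferentiableAt ℂ g (((p + h : ℝ) : ℂ) + t * I) := fun t =>
    hd _ (by rw [vline_re]; linarith) (by rw [vline_re])
  have hd2 : ∀ t : ℝ, DifferentiableAt ℂ g (((p + -h : ℝ) : ℂ) + t * I) := fun t =>
    hd _ (by rw [vline_re]; linarith) (by rw [vline_re]; linarith)
  have hb1 : ∀ t : ℝ, ‖g (((p + h : ℝ) : ℂ) + t * I)‖ ≤ C * Real.exp (-δ * |t|) := fun t => by
    have := hb (((p + h : ℝ) : ℂ) + t * I) (by rw [vline_re]; linarith) (by rw [vline_re])
    rwa [vline_im] at this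
  have hb2 : ∀ t : ℝ, ‖g (((p + -h : ℝ) : ℂ) + t * I)‖ ≤ C * Real.exp (-δ * |t|) := fun t => by
    have := hb (((p + -h : ℝ) : ℂ) + t * I) (by rw [vline_re]; linarith) (by rw [vline_re]; linarith)
    rwa [vline_im] at this
  have hne : h ≠ 0 := hh.ne'
  have hne' : -h ≠ 0 := neg_ne_zero.2 hne
  have h0 : ∀ u : ℝ, LI g p h 0 u - LI g p (-h) 0 u = 0 := by
    intro u
    have h1 := vshift (g := fun z => g z * cexp (-(z - p) * u)) (a := p - h) (b := p + h)
      (C := C * Real.exp (h * |u|)) (δ := δ) hδ (by linarith) (fun z hz1 hz2 => by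
        apply DifferentiableAt.mul (hd z hz1 hz2)
        fun_prop) (fun z hz1 hz2 => by
        rw [norm_mul]
        have e1 : ‖cexp (-(z - p) * u)‖ ≤ Real.exp (h * |u|) := by
          rw [Complex.norm_exp]
          apply Real.exp_le_exp.2
          have : (-(z - p) * u : ℂ).re = -(z.re - p) * u := by simp
          rw [this]
          calc -(z.re - p) * u ≤ |-(z.re - p) * u| := le_abs_self _
            _ = |z.re - p| * |u| := by rw [abs_mul, abs_neg]
            _ ≤ h * |u| := by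
                apply mul_le_mul_of_nonneg_right _ (abs_nonneg _)
                rw [abs_le]; constructor <;> linarith
        have hC : 0 ≤ C * Real.exp (-δ * |z.im|) := (norm_nonneg _).trans (hb z hz1 hz2)
        calc ‖g z‖ * ‖cexp (-(z - p) * u)‖ ≤ (C * Real.exp (-δ * |z.im|)) * Real.exp (h * |u|) :=
              mul_le_mul (hb z hz1 hz2) e1 (norm_nonneg _) hC
          _ = _ := by ring)
    unfold LI
    rw [sub_eq_zero]
    simp only [pow_zero, div_one]
    rw [show (p + -h : ℝ) = p - h by ring]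
    convert! h1.symm using 2
    · funext t
      congr 2
      push_cast
      ring
    · funext t
      congr 2
      push_cast
      ring
  induction i with
  | zero => exact ⟨0, fun _ => ⟨0, by simp⟩, fun u => by rw [h0 u]; simp⟩
  | succ i ih =>
    obtain ⟨P, hPc, hP⟩ := ih
    -- primitive of `-P`
    obtain ⟨R, hR, hRz⟩ : ∃ R : Polynomial ℂ, (∀ z : ℂ, R.derivative.eval z = -(P.eval z)) ∧ (P = 0 → R = 0) := by
      refine ⟨-(∑ n ∈ Finset.range (P.natDegree + 1), Polynomial.C (P.coeff n / (n+1)) * Polynomial.X ^ (n+1)), ?_, ?_⟩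
      · intro z
        rw [Polynomial.derivative_neg, Polynomial.derivative_sum]
        rw [Polynomial.eval_neg, Polynomial.eval_finsetSum, Polynomial.eval_eq_sum_range]
        congr 1
        apply Finset.sum_congr rfl
        intro n _
        rw [Polynomial.derivative_C_mul_X_pow]
        simp only [Nat.cast_add, Nat.cast_one, add_tsub_cancel_right, Polynomial.eval_mul,
          Polynomial.eval_C, Polynomial.eval_pow, Polynomial.eval_X]
        have : ((n:ℂ) + 1) ≠ 0 := by exact_mod_cast Nat.succ_ne_zero n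
        field_simp
      · intro h; rw [h]; simp
    have hder : ∀ u : ℝ, HasDerivAt (fun u : ℝ => (LI g p h (i+1) u - LI g p (-h) (i+1) u) - R.eval (u:ℂ)) 0 u := by
      intro u
      have d1 := LI_deriv hδ hne hd1 hb1 i u
      have d2 := LI_deriv hδ hne' hd2 hb2 i u
      have d3 : HasDerivAt (fun u : ℝ => R.eval (u:ℂ)) (R.derivative.eval (u:ℂ)) u :=
        (R.hasDerivAt (u:ℂ)).comp_ofReal
      have d4 := (d1.sub d2).sub d3
      have e : -LI g p h i u - -LI g p (-h) i u - (R.derivative.eval (u:ℂ)) = 0 := by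
        rw [hR, ← hP u]; ring
      rw [e] at d4
      exact d4
    have hconst := is_const_of_deriv_eq_zero (f := fun u : ℝ => (LI g p h (i+1) u - LI g p (-h) (i+1) u) - R.eval (u:ℂ))
      (fun u => (hder u).differentiableAt) (fun u => (hder u).deriv)
    refine ⟨R + Polynomial.C ((LI g p h (i+1) 0 - LI g p (-h) (i+1) 0) - R.eval ((0:ℝ):ℂ)), ?_, ?_⟩
    · intro hi
      have hi0 : i = 0 := by omega
      subst hi0
      have hP0 : P = 0 := by
        apply Polynomial.funext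
        intro z
        obtain ⟨c, hc⟩ := hPc (by omega)
        have h5 := hP 0
        rw [h0 0, hc] at h5
        simp at h5
        rw [hc, ← h5]; simp
      rw [hRz hP0]
      exact ⟨_, by simp only [zero_add]; rfl⟩
    · intro u
      have h6 := hconst u 0
      beta_reduce at h6
      rw [Polynomial.eval_add, Polynomial.eval_C, ← h6]
      ring

end Pool.Agent.H336R4.PF
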