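import Pool.Agent.H336R4.PF.Defs

open Filter Topology Complex

namespace Pool.Agent.H336R4.PF

lemma norm_add_I (p y : ℝ) : ‖(p : ℂ) + y * I‖ = Real.sqrt (p ^ 2 + y ^ 2) := by
  rw [Complex.norm_def, Complex.normSq_apply]
  simp
  ring_nf

lemma factor_mono {p q y : ℝ} (hp : 0 < p) (hpq : p ≤ q) :
    p * ‖(q : ℂ) + y * I‖ ≤ q * ‖(p : ℂ) + y * I‖ := by
  rw [norm_add_I, norm_add_I]
  have hq : 0 < q := hp.trans_le hpq
  have h1 : p * Real.sqrt (q ^ 2 + y ^ 2) = Real.sqrt (p ^ 2 * (q ^ 2 + y ^ 2)) := by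
    rw [Real.sqrt_mul (sq_nonneg p), Real.sqrt_sq hp.le]
  have h2 : q * Real.sqrt (p ^ 2 + y ^ 2) = Real.sqrt (q ^ 2 * (p ^ 2 + y ^ 2)) := by
    rw [Real.sqrt_mul (sq_nonneg q), Real.sqrt_sq hq.le]
  rw [h1, h2]
  apply Real.sqrt_le_sqrt
  have : p ^ 2 ≤ q ^ 2 := by nlinarith
  nlinarith [mul_le_mul_of_nonneg_right this (sq_nonneg y)]

theorem taskP1 : TaskP1 := by
  intro w₁ w₂ y h1 h12
  have h2 : 0 < w₂ := h1.trans_le h12
  have t1 := (Complex.GammaSeq_tendsto_Gamma ((w₁ : ℂ) + y * I)).norm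
  have t2 := (Complex.GammaSeq_tendsto_Gamma ((w₂ : ℂ) + y * I)).norm
  have r1 := Real.GammaSeq_tendsto_Gamma w₁
  have r2 := Real.GammaSeq_tendsto_Gamma w₂
  refine le_of_tendsto_of_tendsto (t1.mul r2) (t2.mul r1) ?_
  filter_upwards [eventually_ge_atTop 1] with n hn
  have hn0 : (0:ℝ) < n := by exact_mod_cast hn
  unfold Complex.GammaSeq Real.GammaSeq
  rw [norm_div, norm_div, norm_mul, norm_mul, norm_prod, norm_prod, Complex.norm_natCast]
  have e0 : ∀ w : ℝ, ‖((n:ℕ) : ℂ) ^ ((w : ℂ) + y * I)‖ = (n:ℝ) ^ w := by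
    intro w
    rw [← Complex.ofReal_natCast, Complex.norm_cpow_eq_rpow_re_of_pos hn0]
    simp
  rw [e0, e0]
  have key : ∀ m : ℕ, (∏ j ∈ Finset.range m, ‖(w₂ : ℂ) + y * I + j‖) * ∏ j ∈ Finset.range m, (w₁ + j) ≤
      (∏ j ∈ Finset.range m, ‖(w₁ : ℂ) + y * I + j‖) * ∏ j ∈ Finset.range m, (w₂ + j) := by
    intro m
    rw [← Finset.prod_mul_distrib, ← Finset.prod_mul_distrib]
    apply Finset.prod_le_prod
    · intro j _
      positivity
    · intro j _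
      have hj : (0:ℝ) ≤ j := Nat.cast_nonneg j
      have := factor_mono (p := w₁ + j) (q := w₂ + j) (y := y) (by linarith) (by linarith)
      push_cast at this
      have e1 : (w₂ : ℂ) + y * I + j = (w₂ : ℂ) + j + y * I := by ring
      have e2 : (w₁ : ℂ) + y * I + j = (w₁ : ℂ) + j + y * I := by ring
      rw [e1, e2]
      linarith
  have k := key (n+1)
  have pos1 : 0 < ∏ j ∈ Finset.range (n+1), ‖(w₁ : ℂ) + y * I + j‖ := by
    apply Finset.prod_pos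
    intro j _
    rw [norm_pos_iff]
    intro h
    have := congrArg Complex.re h
    simp at this
    have hj : (0:ℝ) ≤ j := Nat.cast_nonneg j
    linarith
  have pos2 : 0 < ∏ j ∈ Finset.range (n+1), ‖(w₂ : ℂ) + y * I + j‖ := by
    apply Finset.prod_pos
    intro j _
    rw [norm_pos_iff]
    intro h
    have := congrArg Complex.re h
    simp at this
    have hj : (0:ℝ) ≤ j := Nat.cast_nonneg j
    linarith
  have pos3 : 0 < ∏ j ∈ Finset.range (n+1), (w₁ + j) := Finset.prod_pos fun j _ => by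
    have hj : (0:ℝ) ≤ j := Nat.cast_nonneg j
    linarith
  have pos4 : 0 < ∏ j ∈ Finset.range (n+1), (w₂ + j) := Finset.prod_pos fun j _ => by
    have hj : (0:ℝ) ≤ j := Nat.cast_nonneg j
    linarith
  rw [div_mul_div_comm, div_mul_div_comm]
  rw [div_le_div_iff₀ (by positivity) (by positivity)]
  have hf : (0:ℝ) < n.factorial := by exact_mod_cast n.factorial_pos
  have hA : 0 ≤ (n:ℝ) ^ w₁ * (n.factorial : ℝ) * ((n:ℝ) ^ w₂ * (n.factorial : ℝ)) := by positivity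
  calc (n:ℝ) ^ w₁ * (n.factorial : ℝ) * ((n:ℝ) ^ w₂ * (n.factorial : ℝ)) *
        ((∏ j ∈ Finset.range (n+1), ‖(w₂ : ℂ) + y * I + j‖) * ∏ j ∈ Finset.range (n+1), (w₁ + j))
      ≤ (n:ℝ) ^ w₁ * (n.factorial : ℝ) * ((n:ℝ) ^ w₂ * (n.factorial : ℝ)) *
        ((∏ j ∈ Finset.range (n+1), ‖(w₁ : ℂ) + y * I + j‖) * ∏ j ∈ Finset.range (n+1), (w₂ + j)) :=
        mul_le_mul_of_nonneg_left k hA
    _ = _ := by ring

theorem taskP2 : TaskP2 := by
  intro y
  have h := Complex.Gamma_mul_Gamma_one_sub ((1:ℂ) / 2 + y * I)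
  have e1 : (1:ℂ) - (1 / 2 + y * I) = (starRingEnd ℂ) ((1:ℂ) / 2 + y * I) := by
    apply Complex.ext
    · simp; norm_num
    · simp
  rw [e1, Complex.Gamma_conj, Complex.mul_conj] at h
  have e2 : Complex.sin (Real.pi * ((1:ℂ) / 2 + y * I)) = (Real.cosh (Real.pi * y) : ℂ) := by
    have : (Real.pi : ℂ) * (1 / 2 + y * I) = (Real.pi * y : ℂ) * I + Real.pi / 2 := by ring
    rw [this, Complex.sin_add_pi_div_two, Complex.cos_mul_I]
    push_cast
    rfl
  rw [e2, Complex.normSq_eq_norm_sq] at h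
  have h3 : ((‖Complex.Gamma (1 / 2 + y * I)‖ ^ 2 : ℝ) : ℂ) = ((Real.pi / Real.cosh (Real.pi * y) : ℝ) : ℂ) := by
    rw [h]
    push_cast
    rfl
  exact_mod_cast h3

end Pool.Agent.H336R4.PF
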