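import Pool.Agent.H336R4.PF.R1
import Pool.Agent.H336R4.PF.TaskP

/-!
# Gamma estimates
-/

open MeasureTheory Set Filter Topology Complex

namespace Pool.Agent.H336R4.PF

lemma Ghalf (y : ℝ) : ‖Complex.Gamma (1 / 2 + y * I)‖ ≤ 3 * Real.exp (-(Real.pi / 2) * |y|) := by
  have h := taskP2 y
  have hc : Real.exp (Real.pi * |y|) / 2 ≤ Real.cosh (Real.pi * y) := by
    have e : Real.cosh (Real.pi * y) = Real.cosh (Real.pi * |y|) := by
      rcases abs_choice y with h | h <;> rw [h]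
      rw [mul_neg, Real.cosh_neg]
    rw [e, Real.cosh_eq]
    have := Real.exp_pos (-(Real.pi * |y|))
    linarith
  have hpos : 0 < Real.exp (Real.pi * |y|) := Real.exp_pos _
  have h1 : ‖Complex.Gamma (1 / 2 + y * I)‖ ^ 2 ≤ (3 * Real.exp (-(Real.pi / 2) * |y|)) ^ 2 := by
    rw [h, mul_pow, ← Real.exp_nat_mul]
    have e : ((2:ℕ):ℝ) * (-(Real.pi / 2) * |y|) = -(Real.pi * |y|) := by push_cast; ring
    rw [e, Real.exp_neg, ← div_eq_mul_inv]
    rw [div_le_div_iff₀ (by positivity) hpos]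
    have := Real.pi_lt_four
    nlinarith
  exact (sq_le_sq₀ (norm_nonneg _) (by positivity)).1 h1

lemma G32 (y : ℝ) : ‖Complex.Gamma (3 / 2 + y * I)‖ ≤ 3 * (1 + |y|) * Real.exp (-(Real.pi / 2) * |y|) := by
  have hne : (1:ℂ) / 2 + y * I ≠ 0 := by
    intro h
    have := congrArg Complex.re h
    simp at this
  have e : (3:ℂ) / 2 + y * I = (1 / 2 + y * I) + 1 := by ring
  rw [e, Complex.Gamma_add_one _ hne, norm_mul]
  have h1 : ‖(1:ℂ) / 2 + y * I‖ ≤ 1 + |y| := by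
    refine (norm_add_le _ _).trans ?_
    have e1 : ‖(1:ℂ) / 2‖ ≤ 1 := by rw [norm_div]; norm_num
    have e2 : ‖(y:ℂ) * I‖ = |y| := by simp
    rw [e2]; linarith
  calc ‖(1:ℂ) / 2 + y * I‖ * ‖Complex.Gamma (1 / 2 + y * I)‖ ≤ (1 + |y|) * (3 * Real.exp (-(Real.pi / 2) * |y|)) :=
        mul_le_mul h1 (Ghalf y) (norm_nonneg _) (by positivity)
    _ = _ := by ring

lemma Gstrip {w y : ℝ} (h1 : 1 / 2 ≤ w) (h2 : w ≤ 3 / 2) :
    ‖Complex.Gamma (w + y * I)‖ ≤ 6 * (1 + |y|) * Real.exp (-(Real.pi / 2) * |y|) := by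
  have h := taskP1 w (3/2) y (by linarith) h2
  have hg1 : Real.Gamma (1/2) = Real.sqrt Real.pi := Real.Gamma_one_half_eq
  have hg2 : Real.Gamma (3/2) = Real.sqrt Real.pi / 2 := by
    have e : (3:ℝ)/2 = 1/2 + 1 := by norm_num
    rw [e, Real.Gamma_add_one (by norm_num), hg1]; ring
  have hsq : 0 < Real.sqrt Real.pi := Real.sqrt_pos.2 Real.pi_pos
  have hw : Real.Gamma w ≤ Real.sqrt Real.pi := by
    have h3 : Real.Gamma w ≤ max (Real.Gamma (1/2)) (Real.Gamma (3/2)) :=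
      Real.convexOn_Gamma.le_max_of_mem_Icc (by norm_num [mem_Ioi]) (by norm_num [mem_Ioi]) ⟨h1, h2⟩
    refine h3.trans (max_le (le_of_eq hg1) ?_)
    rw [hg2]; linarith
  rw [hg2] at h
  have h4 : ‖Complex.Gamma (((3/2 : ℝ) : ℂ) + y * I)‖ ≤ 3 * (1 + |y|) * Real.exp (-(Real.pi / 2) * |y|) := by
    have := G32 y
    push_cast
    exact this
  have hG0 := norm_nonneg (Complex.Gamma (((3/2 : ℝ) : ℂ) + y * I))
  have h5 : ‖Complex.Gamma (w + y * I)‖ * (Real.sqrt Real.pi / 2) ≤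
      (3 * (1 + |y|) * Real.exp (-(Real.pi / 2) * |y|)) * Real.sqrt Real.pi :=
    h.trans (mul_le_mul h4 hw (Real.Gamma_pos_of_pos (by linarith)).le (by positivity))
  have h6 : ‖Complex.Gamma (w + y * I)‖ * Real.sqrt Real.pi ≤
      (6 * (1 + |y|) * Real.exp (-(Real.pi / 2) * |y|)) * Real.sqrt Real.pi := by linarith
  exact le_of_mul_le_mul_right h6 hsq

lemma polyexp {A δ : ℝ} (hA : 0 ≤ A) (hδ : 0 < δ) : ∃ C : ℝ, 0 ≤ C ∧ ∀ t : ℝ,
    (1 + |t|) ^ A * Real.exp (-(2 * δ) * |t|) ≤ C * Real.exp (-δ * |t|) := by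
  obtain ⟨C, hC0, hC⟩ := Pool.Agent.H336R4.F469.rpow_mul_exp_le (a := A + 1) (t := δ) (by linarith) hδ
  refine ⟨C * Real.exp δ, by positivity, fun t => ?_⟩
  have h0 := abs_nonneg t
  have h1 := hC (1 + |t|) (by linarith)
  have h2 : (1 + |t|) ^ A ≤ (1 + |t|) ^ (A + 1) := Real.rpow_le_rpow_of_exponent_le (by linarith) (by linarith)
  have e : Real.exp (-((1 + |t|) * δ)) = Real.exp (-δ) * Real.exp (-δ * |t|) := by
    rw [← Real.exp_add]; congr 1; ring
  rw [e] at h1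
  have e2 : Real.exp (-(2 * δ) * |t|) = Real.exp (-δ * |t|) * Real.exp (-δ * |t|) := by
    rw [← Real.exp_add]; congr 1; ring
  have e3 : Real.exp δ * Real.exp (-δ) = 1 := by rw [← Real.exp_add]; simp
  have hp := Real.exp_pos (-δ * |t|)
  have hpd := Real.exp_pos δ
  rw [e2]
  have h3 : (1 + |t|) ^ A * Real.exp (-δ * |t|) ≤ C * Real.exp δ := by
    have h4 : (1 + |t|) ^ (A+1) * (Real.exp (-δ) * Real.exp (-δ * |t|)) * Real.exp δ ≤ C * Real.exp δ := by gcongr
    have h5 : (1 + |t|) ^ (A+1) * (Real.exp (-δ) * Real.exp (-δ * |t|)) * Real.exp δ = (1 + |t|) ^ (A+1) * Real.exp (-δ * |t|) := by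
      calc _ = (1 + |t|) ^ (A+1) * Real.exp (-δ * |t|) * (Real.exp δ * Real.exp (-δ)) := by ring
        _ = _ := by rw [e3, mul_one]
    rw [h5] at h4
    refine le_trans ?_ h4
    gcongr
  calc (1 + |t|) ^ A * (Real.exp (-δ * |t|) * Real.exp (-δ * |t|)) = ((1 + |t|) ^ A * Real.exp (-δ * |t|)) * Real.exp (-δ * |t|) := by ring
    _ ≤ _ := by gcongr

/-- `Γ(λ K + β) ≤ C (K!)^λ`. -/
lemma Gamma_factorial {l β : ℝ} (hl : 0 < l) (hl1 : l < 1) : ∃ (C : ℝ) (K₀ : ℕ), 0 ≤ C ∧ ∀ K : ℕ, K₀ ≤ K →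
    Real.Gamma (l * K + β) ≤ C * (K.factorial : ℝ) ^ l := by
  obtain ⟨n, hn⟩ := exists_nat_gt (l - β)
  obtain ⟨K₀, hK₀⟩ := exists_nat_gt ((1 - β) / l)
  set B := (β + n - l) / (1 - l) with hB
  have hB0 : 0 < B := div_pos (by linarith) (by linarith)
  refine ⟨Real.Gamma B ^ (1 - l), K₀, by have := Real.Gamma_pos_of_pos hB0; positivity, fun K hK => ?_⟩
  have hK' : (K₀:ℝ) ≤ K := by exact_mod_cast hK
  have h1 : 1 ≤ l * K + β := by
    rw [div_lt_iff₀ hl] at hK₀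
    nlinarith
  have hmono : ∀ j : ℕ, Real.Gamma (l * K + β) ≤ Real.Gamma (l * K + β + j) := by
    intro j
    induction j with
    | zero => simp
    | succ j ih =>
      have hj : (0:ℝ) ≤ j := Nat.cast_nonneg j
      have e : l * K + β + ((j+1 : ℕ):ℝ) = (l * K + β + j) + 1 := by push_cast; ring
      rw [e, Real.Gamma_add_one (by linarith)]
      have hp := Real.Gamma_pos_of_pos (s := l * K + β + j) (by linarith)
      nlinarith
  refine (hmono n).trans ?_
  have hK0 : (0:ℝ) ≤ K := Nat.cast_nonneg K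
  have h2 := Real.Gamma_mul_add_mul_le_rpow_Gamma_mul_rpow_Gamma (s := (K:ℝ) + 1) (t := B) (a := l) (b := 1 - l)
    (by linarith) hB0 hl (by linarith) (by ring)
  have e2 : l * ((K:ℝ) + 1) + (1 - l) * B = l * K + β + n := by
    rw [hB]
    have : 1 - l ≠ 0 := by linarith
    field_simp
    ring
  rw [e2, Real.Gamma_nat_eq_factorial] at h2
  linarith

lemma prod_half_lower (K : ℕ) (hK : 1 ≤ K) : (K.factorial : ℝ) / (2 * K) ≤ ∏ i ∈ Finset.range K, ((i:ℝ) + 1/2) := by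
  induction K with
  | zero => omega
  | succ K ih =>
    rcases Nat.eq_zero_or_pos K with h | h
    · subst h; norm_num
    · have ih := ih h
      rw [Finset.prod_range_succ]
      have hK0 : (0:ℝ) < K := by exact_mod_cast h
      have hf : (0:ℝ) < K.factorial := by exact_mod_cast K.factorial_pos
      calc (((K+1).factorial : ℕ) : ℝ) / (2 * ((K+1 : ℕ):ℝ)) = (K.factorial : ℝ) / 2 := by
            rw [Nat.factorial_succ]; push_cast; field_simp
        _ ≤ (K.factorial : ℝ) / (2 * K) * ((K:ℝ) + 1/2) := by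
            rw [div_mul_eq_mul_div, div_le_div_iff₀ (by norm_num) (by positivity)]
            nlinarith
        _ ≤ _ := by gcongr

/-- `Γ` on the line `Re s = -K + 1/2`. -/
lemma Gline (K : ℕ) (hK : 1 ≤ K) (t : ℝ) :
    ‖Complex.Gamma (((-(K:ℝ) + 1/2 : ℝ) : ℂ) + t * I)‖ ≤ 6 * K / K.factorial * Real.exp (-(Real.pi / 2) * |t|) := by
  set s : ℂ := ((-(K:ℝ) + 1/2 : ℝ) : ℂ) + t * I with hs
  have hre : ∀ j : ℕ, (s + j).re = -(K:ℝ) + 1/2 + j := by intro j; simp [hs]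
  have hne : ∀ j : ℕ, j < K → s + j ≠ 0 := by
    intro j hj h
    have h1 := congrArg Complex.re h
    rw [hre] at h1
    simp at h1
    have h2 : (j:ℝ) + 1 ≤ K := by exact_mod_cast hj
    linarith
  have hshift : ∀ n : ℕ, n ≤ K → Complex.Gamma (s + n) = Complex.Gamma s * ∏ j ∈ Finset.range n, (s + j) := by
    intro n
    induction n with
    | zero => simp
    | succ n ih =>
      intro hn
      have e : s + ((n+1 : ℕ) : ℂ) = (s + n) + 1 := by push_cast; ring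
      rw [e, Complex.Gamma_add_one _ (hne n (by omega)), ih (by omega), Finset.prod_range_succ]
      ring
  have h1 := hshift K le_rfl
  have e1 : s + K = 1/2 + t * I := by
    rw [hs]; push_cast; ring
  rw [e1] at h1
  have h2 := congrArg norm h1
  rw [norm_mul, norm_prod] at h2
  have h3 : ∏ i ∈ Finset.range K, ((i:ℝ) + 1/2) ≤ ∏ j ∈ Finset.range K, ‖s + j‖ := by
    rw [← Finset.prod_range_reflect]
    apply Finset.prod_le_prod
    · intro i _; positivity
    · intro j hj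
      have hj := Finset.mem_range.1 hj
      have h4 := Complex.abs_re_le_norm (s + j)
      rw [hre] at h4
      refine le_trans ?_ h4
      have e : ((K - 1 - j : ℕ) : ℝ) = K - 1 - j := by
        rw [Nat.cast_sub (by omega), Nat.cast_sub (by omega)]; push_cast; ring
      rw [e]
      have := neg_le_abs (-(K:ℝ) + 1/2 + j)
      linarith
  have h5 := (prod_half_lower K hK).trans h3
  have hK0 : (0:ℝ) < K := by exact_mod_cast hK
  have hf : (0:ℝ) < K.factorial := by exact_mod_cast K.factorial_pos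
  have h6 : ‖Complex.Gamma s‖ * ((K.factorial : ℝ) / (2 * K)) ≤ 3 * Real.exp (-(Real.pi / 2) * |t|) := by
    calc ‖Complex.Gamma s‖ * ((K.factorial : ℝ) / (2 * K)) ≤ ‖Complex.Gamma s‖ * ∏ j ∈ Finset.range K, ‖s + j‖ := by gcongr
      _ = ‖Complex.Gamma (1/2 + t * I)‖ := h2.symm
      _ ≤ _ := Ghalf t
  have h7 : ‖Complex.Gamma s‖ = (‖Complex.Gamma s‖ * ((K.factorial : ℝ) / (2 * K))) * (2 * K / K.factorial) := by
    field_simp
  rw [h7]
  calc _ ≤ (3 * Real.exp (-(Real.pi / 2) * |t|)) * (2 * K / K.factorial) := by gcongr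
    _ = _ := by ring

end Pool.Agent.H336R4.PF
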