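import Pool.Agent.H336R4.PF.R2

/-!
# The exponential series and its Mellin transform
-/

open MeasureTheory Set Filter Topology Complex

namespace Pool.Agent.H336R4.PF

/-- coefficients with the value at `0` removed -/
noncomputable def bb (a : ℕ → ℂ) (n : ℕ) : ℂ := if n = 0 then 0 else a n

/-- exponential series -/
noncomputable def ff (a : ℕ → ℂ) (x : ℝ) : ℂ := ∑' n : ℕ, bb a n * cexp (-(n * x))

lemma bb_zero (a : ℕ → ℂ) : bb a 0 = 0 := by simp [bb]

lemma bb_bound {a : ℕ → ℂ} (ha : Ram a) {r : ℝ} (hr : 5 / 4 < r) : ∃ C : ℝ, 0 ≤ C ∧ ∀ (x : ℝ), 0 < x → ∀ n : ℕ,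
    ‖bb a n‖ * Real.exp (-(n * x)) ≤ C * (n:ℝ) ^ (1/4 - r) * x ^ (-r) := by
  obtain ⟨C, hC⟩ := ha (1/4) (by norm_num)
  obtain ⟨D, hD0, hD⟩ := Pool.Agent.H336R4.F469.rpow_mul_exp_le (a := r) (t := 1) (by linarith) one_pos
  refine ⟨|C| * D, by positivity, fun x hx n => ?_⟩
  rcases eq_or_ne n 0 with rfl | hn
  · rw [bb_zero]; simp only [norm_zero, zero_mul]; positivity
  have hn1 : 1 ≤ n := Nat.one_le_iff_ne_zero.2 hn
  have hn0 : (0:ℝ) < n := by exact_mod_cast hn1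
  have h1 := hC n hn1
  have h2 := hD (n * x) (by positivity)
  rw [mul_one] at h2
  have h3 : Real.exp (-(n * x)) ≤ D * ((n:ℝ) ^ (-r) * x ^ (-r)) := by
    rw [Real.mul_rpow hn0.le hx.le] at h2
    rw [Real.rpow_neg hn0.le, Real.rpow_neg hx.le, ← mul_inv, ← div_eq_mul_inv, le_div_iff₀ (by positivity)]
    linarith
  have hb : ‖bb a n‖ ≤ |C| * (n:ℝ) ^ ((1:ℝ)/4) := by
    unfold bb; rw [if_neg hn]
    refine h1.trans ?_
    gcongr
    exact le_abs_self C
  calc ‖bb a n‖ * Real.exp (-(n * x)) ≤ (|C| * (n:ℝ) ^ ((1:ℝ)/4)) * (D * ((n:ℝ) ^ (-r) * x ^ (-r))) :=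
        mul_le_mul hb h3 (Real.exp_pos _).le (by positivity)
    _ = |C| * D * ((n:ℝ) ^ ((1:ℝ)/4) * (n:ℝ) ^ (-r)) * x ^ (-r) := by ring
    _ = _ := by rw [← Real.rpow_add hn0]; rfl

lemma bb_norm_exp (a : ℕ → ℂ) (x : ℝ) (n : ℕ) : ‖bb a n * cexp (-(n * x))‖ = ‖bb a n‖ * Real.exp (-(n * x)) := by
  rw [norm_mul, Complex.norm_exp]
  congr 2
  simp

lemma bb_summable {a : ℕ → ℂ} (ha : Ram a) {x : ℝ} (hx : 0 < x) :
    Summable fun n : ℕ => ‖bb a n‖ * Real.exp (-(n * x)) := by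
  obtain ⟨C, hC0, hC⟩ := bb_bound ha (r := 3) (by norm_num)
  have h1 : Summable fun n : ℕ => C * (n:ℝ) ^ ((1/4 - 3 : ℝ)) * x ^ (-(3:ℝ)) :=
    ((Real.summable_nat_rpow.2 (by norm_num)).mul_left C).mul_right _
  exact Summable.of_nonneg_of_le (fun n => by positivity) (fun n => hC x hx n) h1

lemma ff_hasSum {a : ℕ → ℂ} (ha : Ram a) {x : ℝ} (hx : 0 < x) :
    HasSum (fun n : ℕ => bb a n * cexp (-(n * x))) (ff a x) := by
  apply Summable.hasSum
  apply Summable.of_norm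
  refine (bb_summable ha hx).congr fun n => ?_
  rw [bb_norm_exp]

lemma ff_bound {a : ℕ → ℂ} (ha : Ram a) {r : ℝ} (hr : 5 / 4 < r) : ∃ C : ℝ, ∀ x : ℝ, 0 < x →
    ‖ff a x‖ ≤ C * x ^ (-r) := by
  obtain ⟨C, hC0, hC⟩ := bb_bound ha hr
  have hs : Summable fun n : ℕ => (n:ℝ) ^ ((1/4 - r : ℝ)) := Real.summable_nat_rpow.2 (by linarith)
  refine ⟨C * ∑' n : ℕ, (n:ℝ) ^ ((1/4 - r : ℝ)), fun x hx => ?_⟩
  have h1 : HasSum (fun n : ℕ => C * (n:ℝ) ^ ((1/4 - r : ℝ)) * x ^ (-r)) (C * (∑' n : ℕ, (n:ℝ) ^ ((1/4 - r : ℝ))) * x ^ (-r)) :=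
    (hs.hasSum.mul_left C).mul_right _
  exact tsum_of_norm_bounded h1 (fun n => by rw [bb_norm_exp]; exact hC x hx n)

lemma ff_continuousOn {a : ℕ → ℂ} (ha : Ram a) : ContinuousOn (ff a) (Ioi 0) := by
  intro t ht
  have ht : 0 < t := ht
  apply ContinuousAt.continuousWithinAt
  have : ContinuousOn (ff a) (Ioi (t/2)) := by
    unfold ff
    apply continuousOn_tsum (u := fun n => ‖bb a n‖ * Real.exp (-(n * (t/2))))
    · intro n
      fun_prop
    · exact bb_summable ha (by positivity)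
    · intro n x hx
      rw [bb_norm_exp]
      have hx : t / 2 < x := hx
      have : (0:ℝ) ≤ n := Nat.cast_nonneg n
      gcongr
  exact this.continuousAt (Ioi_mem_nhds (by linarith))

lemma ff_mellinConvergent {a : ℕ → ℂ} (ha : Ram a) : MellinConvergent (ff a) ((3/2 : ℝ) : ℂ) := by
  apply mellinConvergent_of_isBigO_rpow (a := 3) (b := 11/8)
  · exact (ff_continuousOn ha).locallyIntegrableOn measurableSet_Ioi
  · obtain ⟨C, hC⟩ := ff_bound ha (r := 3) (by norm_num)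
    apply Asymptotics.IsBigO.of_bound C
    filter_upwards [eventually_gt_atTop 0] with x hx
    refine (hC x hx).trans (le_of_eq ?_)
    rw [Real.norm_of_nonneg (by positivity)]
  · rw [Complex.ofReal_re]; norm_num
  · obtain ⟨C, hC⟩ := ff_bound ha (r := 11/8) (by norm_num)
    apply Asymptotics.IsBigO.of_bound C
    filter_upwards [self_mem_nhdsWithin] with x hx
    have hx : 0 < x := hx
    refine (hC x hx).trans (le_of_eq ?_)
    rw [Real.norm_of_nonneg (by positivity)]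
  · rw [Complex.ofReal_re]; norm_num

lemma bb_div_summable {a : ℕ → ℂ} (ha : Ram a) {σ : ℝ} (hσ : 3/2 ≤ σ) :
    Summable fun n : ℕ => ‖bb a n‖ / (n:ℝ) ^ σ := by
  obtain ⟨C, hC⟩ := ha (1/4) (by norm_num)
  have h1 : Summable fun n : ℕ => |C| * (n:ℝ) ^ ((1/4 - σ : ℝ)) :=
    (Real.summable_nat_rpow.2 (by linarith)).mul_left _
  refine Summable.of_nonneg_of_le (fun n => by positivity) (fun n => ?_) h1
  rcases eq_or_ne n 0 with rfl | hn
  · rw [bb_zero]; simp only [norm_zero, zero_div]; positivity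
  have hn1 : 1 ≤ n := Nat.one_le_iff_ne_zero.2 hn
  have hn0 : (0:ℝ) < n := by exact_mod_cast hn1
  have h1 := hC n hn1
  rw [Real.rpow_sub hn0, ← mul_div_assoc]
  unfold bb; rw [if_neg hn]
  gcongr
  refine h1.trans ?_
  gcongr
  exact le_abs_self C

lemma mellin_ff {a : ℕ → ℂ} (ha : Ram a) {s : ℂ} (hs : 3/2 ≤ s.re) :
    mellin (ff a) s = Complex.Gamma s * LSeries a s := by
  have h : HasSum (fun n : ℕ => Complex.Gamma s * bb a n / ((n:ℝ) : ℂ) ^ s) (mellin (ff a) s) := by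
    apply hasSum_mellin
    · intro n
      rcases eq_or_ne n 0 with rfl | hn
      · left; exact bb_zero a
      · right; exact_mod_cast Nat.pos_of_ne_zero hn
    · linarith
    · intro t ht
      have := ff_hasSum ha (x := t) ht
      convert! this using 2 with n
      push_cast
      congr 2
      ring
    · exact bb_div_summable ha hs
  rw [← h.tsum_eq, LSeries, ← tsum_mul_left]
  apply tsum_congr
  intro n
  rcases eq_or_ne n 0 with rfl | hn
  · simp [bb_zero]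
  · rw [LSeries.term_of_ne_zero hn]
    unfold bb; rw [if_neg hn]
    push_cast
    ring

lemma LSeries_bound {a : ℕ → ℂ} (ha : Ram a) : ∃ C : ℝ, 0 ≤ C ∧ ∀ s : ℂ, 3/2 ≤ s.re → ‖LSeries a s‖ ≤ C := by
  have h0 := bb_div_summable ha (le_refl (3/2:ℝ))
  refine ⟨∑' n : ℕ, ‖bb a n‖ / (n:ℝ) ^ ((3/2:ℝ)), tsum_nonneg fun n => by positivity, fun s hs => ?_⟩
  apply tsum_of_norm_bounded h0.hasSum
  intro n
  rcases eq_or_ne n 0 with rfl | hn
  · simp [bb_zero]
  · have hn1 : (1:ℝ) ≤ n := by exact_mod_cast Nat.one_le_iff_ne_zero.2 hn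
    rw [LSeries.term_of_ne_zero hn, norm_div, Complex.norm_natCast_cpow_of_pos (Nat.pos_of_ne_zero hn)]
    unfold bb; rw [if_neg hn]
    gcongr

end Pool.Agent.H336R4.PF
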