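import Pool.Agent.H336R4.PF.R3

/-!
# Mellin-Barnes: estimates on the lines
-/

open MeasureTheory Set Filter Topology Complex

namespace Pool.Agent.H336R4.PF

/-- `F Γ` -/
noncomputable def Phi (m : ℕ) (G : ℂ → ℂ) (s : ℂ) : ℂ := G s / (s - 1) ^ m * Complex.Gamma s

/-- line integral -/
noncomputable def JJ (m : ℕ) (G : ℂ → ℂ) (c u : ℝ) : ℂ := ∫ t : ℝ, Phi m G (c + t * I) * cexp (-(c + t * I) * u)

lemma norm_JJ_le (m : ℕ) (G : ℂ → ℂ) (c u : ℝ) : ‖JJ m G c u‖ ≤ Real.exp (-c * u) * ∫ t : ℝ, ‖Phi m G (c + t * I)‖ := by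
  unfold JJ
  refine (norm_integral_le_integral_norm _).trans (le_of_eq ?_)
  rw [← integral_const_mul]
  congr 1
  funext t
  rw [norm_mul, Complex.norm_exp]
  have : (-((c:ℂ) + t * I) * u).re = -c * u := by simp
  rw [this, mul_comm]

lemma GG {G : ℂ → ℂ} {L : ℝ} (hL : 2 * L < 1)
    (hSG : ∀ K : ℝ, ∃ C A : ℝ, 0 ≤ C ∧ 0 ≤ A ∧ ∀ s : ℂ, |s.re| ≤ K →
      ‖G s‖ ≤ C * (1 + |s.im|) ^ A * Real.exp (Real.pi * L * |s.im|)) (K : ℝ) :
    ∃ C : ℝ, 0 ≤ C ∧ ∀ z w : ℂ, |z.re| ≤ K → 1/2 ≤ w.re → w.re ≤ 3/2 → w.im = z.im →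
      ‖G z‖ * ‖Complex.Gamma w‖ ≤ C * Real.exp (-((Real.pi / 2 - Real.pi * L) / 2) * |z.im|) := by
  obtain ⟨C, A, hC, hA, h⟩ := hSG K
  set δ := (Real.pi / 2 - Real.pi * L) / 2 with hδ
  have hδ0 : 0 < δ := by
    have := Real.pi_pos
    rw [hδ]; nlinarith
  obtain ⟨D, hD0, hD⟩ := polyexp (A := A + 1) (by linarith) hδ0
  refine ⟨6 * C * D, by positivity, fun z w hz h1 h2 h3 => ?_⟩
  have a1 := h z hz
  have a2 := Gstrip (w := w.re) (y := w.im) h1 h2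
  rw [Complex.re_add_im, h3] at a2
  have hy := abs_nonneg z.im
  have e1 : Real.exp (Real.pi * L * |z.im|) * Real.exp (-(Real.pi / 2) * |z.im|) = Real.exp (-(2 * δ) * |z.im|) := by
    rw [← Real.exp_add, hδ]; congr 1; ring
  have e2 : (1 + |z.im|) ^ A * (1 + |z.im|) = (1 + |z.im|) ^ (A + 1) := by
    rw [Real.rpow_add (by linarith), Real.rpow_one]
  calc ‖G z‖ * ‖Complex.Gamma w‖ ≤ (C * (1 + |z.im|) ^ A * Real.exp (Real.pi * L * |z.im|)) *
        (6 * (1 + |z.im|) * Real.exp (-(Real.pi / 2) * |z.im|)) := mul_le_mul a1 a2 (norm_nonneg _) (by positivity)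
    _ = 6 * C * (((1 + |z.im|) ^ A * (1 + |z.im|)) * (Real.exp (Real.pi * L * |z.im|) * Real.exp (-(Real.pi / 2) * |z.im|))) := by ring
    _ = 6 * C * ((1 + |z.im|) ^ (A + 1) * Real.exp (-(2 * δ) * |z.im|)) := by rw [e1, e2]
    _ ≤ 6 * C * (D * Real.exp (-δ * |z.im|)) := mul_le_mul_of_nonneg_left (hD _) (by positivity)
    _ = _ := by ring

/-- bound on the far left lines -/
lemma phi_line (hFEX : TaskFEX) {a : ℕ → ℂ} (ha : Ram a) {m : ℕ} {G : ℂ → ℂ} (hG : Cont a m G)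
    {Q : ℝ} {k : ℕ} {lam : Fin k → ℝ} {μ : Fin k → ℂ} {ω : ℂ} (hQ : 0 < Q) (hFE : FE m G Q k lam μ ω)
    (hd : 2 * ∑ j, lam j < 1) : ∃ (C : ℝ) (K₀ : ℕ), 0 ≤ C ∧ ∀ K : ℕ, K₀ ≤ K → ∀ t : ℝ,
      ‖Phi m G (((-(K:ℝ) + 1/2 : ℝ) : ℂ) + t * I)‖ ≤
        C * (K * Q ^ (2 * K) * (K.factorial : ℝ) ^ (2 * ∑ j, lam j - 1)) *
          Real.exp (-(2 * ((Real.pi / 2 - Real.pi * ∑ j, lam j) / 2)) * |t|) := by
  obtain ⟨C₀, hC₀, hL⟩ := LSeries_bound ha
  have hlam : ∀ j, 0 < lam j := hFE.1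
  have hlam1 : ∀ j, lam j < 1 := by
    intro j
    have : lam j ≤ ∑ i, lam i := Finset.single_le_sum (fun i _ => (hlam i).le) (Finset.mem_univ j)
    have h0 := hlam j
    linarith
  have hA : ∀ j, ∃ (C : ℝ) (K₀ : ℕ), 0 ≤ C ∧ ∀ K : ℕ, K₀ ≤ K →
      Real.Gamma (lam j * K + (lam j / 2 + (μ j).re)) ≤ C * (K.factorial : ℝ) ^ (lam j) := fun j =>
    Gamma_factorial (hlam j) (hlam1 j)
  have hB : ∀ j, ∃ (C : ℝ) (K₀ : ℕ), 0 ≤ C ∧ ∀ K : ℕ, K₀ ≤ K →
      Real.Gamma (lam j * K + (1 - lam j / 2 - (μ j).re)) ≤ C * (K.factorial : ℝ) ^ (lam j) := fun j =>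
    Gamma_factorial (hlam j) (hlam1 j)
  have hE : ∀ j, ∃ K₀ : ℕ, ∀ K : ℕ, K₀ ≤ K → lam j * (-(K:ℝ) + 1/2) + (μ j).re ≤ 0 := by
    intro j
    obtain ⟨K₀, hK₀⟩ := exists_nat_gt (1/2 + (μ j).re / lam j)
    refine ⟨K₀, fun K hK => ?_⟩
    have hK' : (K₀:ℝ) ≤ K := by exact_mod_cast hK
    have h1 : 1/2 + (μ j).re / lam j < K := by linarith
    have h2 : lam j * (1/2 + (μ j).re / lam j) ≤ lam j * K := mul_le_mul_of_nonneg_left h1.le (hlam j).le
    have h3 : lam j * (1/2 + (μ j).re / lam j) = lam j / 2 + (μ j).re := by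
      have := (hlam j).ne'
      field_simp
    linarith
  choose CA KA hCA hKA using hA
  choose CB KB hCB hKB using hB
  choose KE hKE using hE
  refine ⟨(∏ j, (CA j * CB j * Real.exp (Real.pi * |(μ j).im|))) * C₀ * 6,
    1 + ∑ j, (KA j + KB j + KE j), by
      have : 0 ≤ ∏ j, (CA j * CB j * Real.exp (Real.pi * |(μ j).im|)) :=
        Finset.prod_nonneg fun j _ => mul_nonneg (mul_nonneg (hCA j) (hCB j)) (Real.exp_pos _).le
      positivity, fun K hK t => ?_⟩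
  have hK1 : 1 ≤ K := by omega
  have hKj : ∀ j, KA j + KB j + KE j ≤ K := by
    intro j
    have : KA j + KB j + KE j ≤ ∑ i, (KA i + KB i + KE i) :=
      Finset.single_le_sum (f := fun i => KA i + KB i + KE i) (fun i _ => Nat.zero_le _) (Finset.mem_univ j)
    omega
  have hK1' : (1:ℝ) ≤ K := by exact_mod_cast hK1
  set s : ℂ := ((-(K:ℝ) + 1/2 : ℝ) : ℂ) + t * I with hs
  have hsre : s.re = -(K:ℝ) + 1/2 := by simp [hs]
  have hsim : s.im = t := by simp [hs]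
  have hs0 : s ≠ 0 := by
    intro h; rw [h] at hsre; simp at hsre; linarith
  have hs1 : s - 1 ≠ 0 := by
    intro h
    have := congrArg Complex.re h
    simp [hsre] at this
    linarith
  have hre2 : (1 - (starRingEnd ℂ) s).re = K + 1/2 := by simp [hsre]; ring
  have hF := hFEX m G hG.1 Q k lam μ ω hQ hFE s
  have hG2 : G (1 - (starRingEnd ℂ) s) = (-(starRingEnd ℂ) s) ^ m * LSeries a (1 - (starRingEnd ℂ) s) := by
    rw [hG.2.2 _ (by rw [hre2]; linarith)]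
    congr 2
    ring
  have hn := congrArg norm hF
  rw [norm_mul, norm_mul, norm_mul, norm_mul, norm_mul, norm_mul, norm_mul, norm_mul, Complex.norm_conj, hG2, norm_mul,
    norm_pow, norm_pow, norm_pow, norm_pow, norm_neg, norm_neg, norm_one, one_pow, Complex.norm_conj, hFE.2.2.1,
    norm_prod, norm_prod, Complex.norm_cpow_eq_rpow_re_of_pos hQ, Complex.norm_cpow_eq_rpow_re_of_pos hQ] at hn
  have hLb : ‖LSeries a (1 - (starRingEnd ℂ) s)‖ ≤ C₀ := hL _ (by rw [hre2]; linarith)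
  -- the dual gamma factors
  have hz1re : ∀ j, ((lam j : ℂ) * (1 - s) + (starRingEnd ℂ) (μ j)).re = lam j * K + (lam j / 2 + (μ j).re) := by
    intro j; simp [hsre]; ring
  have hz1pos : ∀ j, 0 < ((lam j : ℂ) * (1 - s) + (starRingEnd ℂ) (μ j)).re := by
    intro j
    rw [hz1re]
    have := hlam j
    have := hFE.2.1 j
    positivity
  have hz2re : ∀ j, ((lam j : ℂ) * s + μ j).re = lam j * (-(K:ℝ) + 1/2) + (μ j).re := by
    intro j; simp [hsre]
  have hz2im : ∀ j, ((lam j : ℂ) * s + μ j).im = lam j * t + (μ j).im := by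
    intro j; simp [hsim]
  set X := ∏ j, ‖(Complex.Gamma ((lam j : ℂ) * (1 - s) + (starRingEnd ℂ) (μ j)))⁻¹‖ with hX
  set Y := ∏ j, ‖(Complex.Gamma ((lam j : ℂ) * s + μ j))⁻¹‖ with hY
  have hXpos : 0 < X := Finset.prod_pos fun j _ => by
    rw [norm_pos_iff]
    exact inv_ne_zero (Complex.Gamma_ne_zero_of_re_pos (hz1pos j))
  have hXY : Y ≤ X * ((∏ j, (CA j * CB j * Real.exp (Real.pi * |(μ j).im|))) *
      (K.factorial : ℝ) ^ (2 * ∑ j, lam j) * Real.exp (Real.pi * (∑ j, lam j) * |t|)) := by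
    have e1 : (K.factorial : ℝ) ^ (2 * ∑ j, lam j) = ∏ j, ((K.factorial : ℝ) ^ (lam j) * (K.factorial : ℝ) ^ (lam j)) := by
      have hf : (0:ℝ) < K.factorial := by exact_mod_cast K.factorial_pos
      rw [Finset.mul_sum, Real.rpow_sum_of_pos hf]
      apply Finset.prod_congr rfl
      intro j _
      rw [← Real.rpow_add hf]; congr 1; ring
    have e2 : Real.exp (Real.pi * (∑ j, lam j) * |t|) = ∏ j, Real.exp (Real.pi * lam j * |t|) := by
      rw [← Real.exp_sum, Finset.mul_sum, Finset.sum_mul]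
    rw [e1, e2, hX, hY, ← Finset.prod_mul_distrib, ← Finset.prod_mul_distrib, ← Finset.prod_mul_distrib]
    apply Finset.prod_le_prod (fun j _ => norm_nonneg _)
    intro j _
    have b1 := H336Sel.inv_Gamma_le (w := (lam j : ℂ) * s + μ j) (by
      rw [hz2re]; exact hKE j K (by have := hKj j; omega))
    rw [hz2re, hz2im] at b1
    have b2 : Real.Gamma (1 - (lam j * (-(K:ℝ) + 1/2) + (μ j).re)) ≤ CB j * (K.factorial : ℝ) ^ (lam j) := by
      have := hKB j K (by have := hKj j; omega)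
      rw [show 1 - (lam j * (-(K:ℝ) + 1/2) + (μ j).re) = lam j * K + (1 - lam j / 2 - (μ j).re) by ring]
      exact this
    have b3 : Real.exp (Real.pi * |lam j * t + (μ j).im|) ≤ Real.exp (Real.pi * lam j * |t|) * Real.exp (Real.pi * |(μ j).im|) := by
      rw [← Real.exp_add]
      apply Real.exp_le_exp.2
      have h5 : |lam j * t + (μ j).im| ≤ lam j * |t| + |(μ j).im| := by
        refine (abs_add_le _ _).trans ?_
        rw [abs_mul, abs_of_pos (hlam j)]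
      have := Real.pi_pos
      nlinarith
    have b4 : ‖Complex.Gamma ((lam j : ℂ) * (1 - s) + (starRingEnd ℂ) (μ j))‖ ≤ CA j * (K.factorial : ℝ) ^ (lam j) := by
      refine (H336Sel.norm_Gamma_le (hz1pos j)).trans ?_
      rw [hz1re]
      exact hKA j K (by have := hKj j; omega)
    have b5 : 0 < ‖Complex.Gamma ((lam j : ℂ) * (1 - s) + (starRingEnd ℂ) (μ j))‖ :=
      norm_pos_iff.2 (Complex.Gamma_ne_zero_of_re_pos (hz1pos j))
    have b6 : 1 ≤ ‖(Complex.Gamma ((lam j : ℂ) * (1 - s) + (starRingEnd ℂ) (μ j)))⁻¹‖ * (CA j * (K.factorial : ℝ) ^ (lam j)) := by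
      rw [norm_inv, inv_mul_eq_div, one_le_div b5]
      exact b4
    have hcb := hCB j
    have hnn : 0 ≤ CB j * (K.factorial : ℝ) ^ (lam j) := by positivity
    calc ‖(Complex.Gamma ((lam j : ℂ) * s + μ j))⁻¹‖
        ≤ (CB j * (K.factorial : ℝ) ^ (lam j)) * (Real.exp (Real.pi * lam j * |t|) * Real.exp (Real.pi * |(μ j).im|)) :=
          b1.trans (mul_le_mul b2 b3 (Real.exp_pos _).le hnn)
      _ = 1 * ((CB j * (K.factorial : ℝ) ^ (lam j)) * (Real.exp (Real.pi * lam j * |t|) * Real.exp (Real.pi * |(μ j).im|))) := by ring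
      _ ≤ (‖(Complex.Gamma ((lam j : ℂ) * (1 - s) + (starRingEnd ℂ) (μ j)))⁻¹‖ * (CA j * (K.factorial : ℝ) ^ (lam j))) *
          ((CB j * (K.factorial : ℝ) ^ (lam j)) * (Real.exp (Real.pi * lam j * |t|) * Real.exp (Real.pi * |(μ j).im|))) := by
          apply mul_le_mul_of_nonneg_right b6
          positivity
      _ = _ := by ring
  have hspos : 0 < ‖s‖ ^ m := pow_pos (norm_pos_iff.2 hs0) _
  have hs1pos : 0 < ‖s - 1‖ ^ m := pow_pos (norm_pos_iff.2 hs1) _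
  have hQs : 0 < Q ^ s.re := Real.rpow_pos_of_pos hQ _
  -- bound for F
  set Z := (∏ j, (CA j * CB j * Real.exp (Real.pi * |(μ j).im|))) *
      (K.factorial : ℝ) ^ (2 * ∑ j, lam j) * Real.exp (Real.pi * (∑ j, lam j) * |t|) with hZ
  have hZ0 : 0 ≤ Z := by
    have : 0 ≤ ∏ j, (CA j * CB j * Real.exp (Real.pi * |(μ j).im|)) :=
      Finset.prod_nonneg fun j _ => mul_nonneg (mul_nonneg (hCA j) (hCB j)) (Real.exp_pos _).le
    positivity
  have hFb : ‖G s / (s - 1) ^ m‖ ≤ Q ^ (2 * K) * Z * C₀ := by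
    rw [norm_div, norm_pow, div_le_iff₀ hs1pos]
    have hpos : 0 < Q ^ s.re * X * ‖s‖ ^ m := by positivity
    apply le_of_mul_le_mul_left _ hpos
    have e3 : Q ^ (1 - s).re = Q ^ s.re * Q ^ (2 * K) := by
      rw [← Real.rpow_natCast, ← Real.rpow_add hQ]
      congr 1
      simp [hsre]
      ring
    rw [e3] at hn
    have hnn : 0 ≤ Q ^ s.re * Q ^ (2 * K) * (‖s‖ ^ m * ‖s - 1‖ ^ m) := by positivity
    calc Q ^ s.re * X * ‖s‖ ^ m * ‖G s‖ = Q ^ s.re * X * (‖G s‖ * ‖s‖ ^ m) := by ring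
      _ = Q ^ s.re * Q ^ (2 * K) * (‖s‖ ^ m * ‖s - 1‖ ^ m) * (Y * ‖LSeries a (1 - (starRingEnd ℂ) s)‖) := by
          rw [hn]; ring
      _ ≤ Q ^ s.re * Q ^ (2 * K) * (‖s‖ ^ m * ‖s - 1‖ ^ m) * ((X * Z) * C₀) := by
          apply mul_le_mul_of_nonneg_left _ hnn
          exact mul_le_mul hXY hLb (norm_nonneg _) (by positivity)
      _ = _ := by ring
  unfold Phi
  rw [norm_mul]
  have hGl := Gline K hK1 t
  rw [← hs] at hGl
  have hf : (0:ℝ) < K.factorial := by exact_mod_cast K.factorial_pos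
  have e4 : (K.factorial : ℝ) ^ (2 * ∑ j, lam j - 1) = (K.factorial : ℝ) ^ (2 * ∑ j, lam j) / K.factorial := by
    rw [Real.rpow_sub hf, Real.rpow_one]
  have e5 : Real.exp (-(2 * ((Real.pi / 2 - Real.pi * ∑ j, lam j) / 2)) * |t|) =
      Real.exp (Real.pi * (∑ j, lam j) * |t|) * Real.exp (-(Real.pi / 2) * |t|) := by
    rw [← Real.exp_add]; congr 1; ring
  rw [e4, e5]
  calc ‖G s / (s - 1) ^ m‖ * ‖Complex.Gamma s‖ ≤ (Q ^ (2 * K) * Z * C₀) * (6 * K / K.factorial * Real.exp (-(Real.pi / 2) * |t|)) :=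
        mul_le_mul hFb hGl (norm_nonneg _) (by positivity)
    _ = _ := by rw [hZ]; ring

end Pool.Agent.H336R4.PF
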