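import Pool.Agent.H336R4.PF.R4

/-!
# Mellin-Barnes: assembly (task R)
-/

open MeasureTheory Set Filter Topology Complex

namespace Pool.Agent.H336R4.PF

/-- regularised integrand near `-k` -/
noncomputable def gk (m : ℕ) (G : ℂ → ℂ) (k : ℕ) (z : ℂ) : ℂ :=
  G z / (z - 1) ^ m * (Complex.Gamma (z + (k + 1 : ℕ)) / ∏ j ∈ Finset.range k, (z + j))

lemma Gamma_shift_eq (s : ℂ) (n : ℕ) (h : ∀ j : ℕ, j < n → s + j ≠ 0) :
    Complex.Gamma (s + n) = Complex.Gamma s * ∏ j ∈ Finset.range n, (s + j) := by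
  induction n with
  | zero => simp
  | succ n ih =>
    have e : s + ((n+1 : ℕ) : ℂ) = (s + n) + 1 := by push_cast; ring
    rw [e, Complex.Gamma_add_one _ (h n (by omega)), ih (fun j hj => h j (by omega)), Finset.prod_range_succ]
    ring

lemma gk_phi (m : ℕ) (G : ℂ → ℂ) (k : ℕ) {s : ℂ} (h : ∀ j : ℕ, j < k + 1 → s + j ≠ 0) :
    gk m G k s / (s + k) = Phi m G s := by
  unfold gk Phi
  rw [Gamma_shift_eq s (k+1) h, Finset.prod_range_succ]
  have h1 : ∏ j ∈ Finset.range k, (s + j) ≠ 0 :=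
    Finset.prod_ne_zero_iff.2 fun j hj => h j (by have := Finset.mem_range.1 hj; omega)
  have h2 := h k (by omega)
  field_simp

lemma LI_gk (m : ℕ) (G : ℂ → ℂ) (k : ℕ) {h : ℝ} (hh : h = 1/2 ∨ h = -(1/2)) (u : ℝ) :
    LI (gk m G k) (-(k:ℝ)) h 1 u = cexp (-(k:ℂ) * u) * JJ m G (-(k:ℝ) + h) u := by
  unfold LI JJ
  rw [← integral_const_mul]
  congr 1
  funext t
  set s : ℂ := ((-(k:ℝ) + h : ℝ) : ℂ) + t * I with hs
  have hne : ∀ j : ℕ, j < k + 1 → s + j ≠ 0 := by
    intro j hj h0
    have h1 := congrArg Complex.re h0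
    simp [hs] at h1
    have h2 : (j:ℝ) ≤ k := by exact_mod_cast (by omega : j ≤ k)
    rcases hh with h3 | h3
    · have h4 : ((2 * k : ℕ) : ℤ) = (2 * j + 1 : ℕ) := by
        have : (2 * k : ℝ) = 2 * j + 1 := by rw [h3] at h1; linarith
        exact_mod_cast this
      omega
    · rw [h3] at h1; linarith
  have h1 := gk_phi m G k hne
  have e1 : s + k = (h : ℂ) + t * I := by rw [hs]; push_cast; ring
  rw [e1] at h1
  have e2 : (((-(k:ℝ) + h : ℝ)) : ℂ) + t * I = s := rfl
  rw [pow_one, mul_div_right_comm, h1]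
  have e3 : cexp (-((h : ℂ) + t * I) * u) = cexp (-(k:ℂ) * u) * cexp (-s * u) := by
    rw [← Complex.exp_add, ← e1]; congr 1; ring
  rw [e3]
  ring

lemma LI_one (m : ℕ) (G : ℂ → ℂ) {h : ℝ} (u : ℝ) :
    LI (fun z => G z * Complex.Gamma z) 1 h m u = cexp u * JJ m G (1 + h) u := by
  unfold LI JJ
  rw [← integral_const_mul]
  congr 1
  funext t
  set s : ℂ := ((1 + h : ℝ) : ℂ) + t * I with hs
  have e1 : s - 1 = (h : ℂ) + t * I := by rw [hs]; push_cast; ring
  have e3 : cexp (-((h : ℂ) + t * I) * u) = cexp u * cexp (-s * u) := by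
    rw [← Complex.exp_add, ← e1]; congr 1; ring
  rw [e3]
  unfold Phi
  rw [e1]
  ring

lemma MM_summable {X : ℕ → ℝ} {C Q η : ℝ} {K₀ : ℕ} (hC : 0 ≤ C) (hη : η < 0)
    (hX0 : ∀ K, 0 ≤ X K) (hX : ∀ K, K₀ ≤ K → X K ≤ C * (K * Q ^ (2 * K) * (K.factorial : ℝ) ^ η)) {R : ℝ} (hR : 0 ≤ R) :
    Summable fun K => X K * R ^ K := by
  -- choose `Y` with `Y ^ (-η) = 4 Q² (R + 1)`, assuming `Q` nonzero
  set W : ℝ := 4 * (Q ^ 2 + 1) * (R + 1) with hW
  have hWpos : 0 < W := by positivity
  set Y : ℝ := W ^ (1 / (-η)) with hY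
  have hYpos : 0 < Y := Real.rpow_pos_of_pos hWpos _
  have hYW : Y ^ (-η) = W := by
    rw [hY, ← Real.rpow_mul hWpos.le]
    have : 1 / (-η) * (-η) = 1 := one_div_mul_cancel (by linarith)
    rw [this, Real.rpow_one]
  have hfac : ∀ K : ℕ, (K.factorial : ℝ) ^ η ≤ Real.exp (-η * Y) * (W⁻¹) ^ K := by
    intro K
    have hf : (0:ℝ) < K.factorial := by exact_mod_cast K.factorial_pos
    have h1 : Y ^ K / K.factorial ≤ Real.exp Y := Real.pow_div_factorial_le_exp _ hYpos.le _
    have h2 : Y ^ K * Real.exp (-Y) ≤ K.factorial := by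
      rw [Real.exp_neg, ← div_eq_mul_inv, div_le_iff₀ (Real.exp_pos _)]
      rw [div_le_iff₀ hf] at h1
      linarith
    have h3 : (K.factorial : ℝ) ^ η ≤ (Y ^ K * Real.exp (-Y)) ^ η :=
      Real.rpow_le_rpow_of_nonpos (by positivity) h2 hη.le
    refine h3.trans (le_of_eq ?_)
    rw [Real.mul_rpow (by positivity) (Real.exp_pos _).le, ← Real.exp_mul, ← Real.rpow_natCast, ← Real.rpow_mul hYpos.le]
    have e1 : (K:ℝ) * η = (-η) * (-(K:ℝ)) := by ring
    rw [e1, Real.rpow_mul hYpos.le, hYW, Real.rpow_neg hWpos.le, Real.rpow_natCast, inv_pow, mul_comm]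
    congr 2
    ring
  have hmain : Summable fun K : ℕ => C * Real.exp (-η * Y) * ((K:ℝ) * (1/4) ^ K) := by
    apply Summable.mul_left
    have := summable_pow_mul_geometric_of_norm_lt_one 1 (r := (1/4 : ℝ)) (by norm_num)
    simpa using this
  rw [← summable_nat_add_iff K₀]
  refine Summable.of_nonneg_of_le (fun K => mul_nonneg (hX0 _) (pow_nonneg hR _)) (fun K => ?_)
    ((summable_nat_add_iff K₀).2 hmain)
  set N := K + K₀ with hN
  have h1 := hX N (by omega)
  have h2 := hfac N
  have h3 : Q ^ (2 * N) * R ^ N * (W⁻¹) ^ N ≤ (1/4) ^ N := by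
    rw [pow_mul, ← mul_pow, ← mul_pow]
    apply pow_le_pow_left₀ (by positivity)
    rw [hW, ← div_eq_mul_inv, div_le_iff₀ (by positivity)]
    nlinarith [sq_nonneg Q, mul_nonneg (sq_nonneg Q) hR]
  have hRN : 0 ≤ R ^ N := pow_nonneg hR _
  have hQN : 0 ≤ Q ^ (2 * N) := by rw [pow_mul]; positivity
  calc X N * R ^ N ≤ C * (N * Q ^ (2 * N) * (N.factorial : ℝ) ^ η) * R ^ N := by gcongr
    _ ≤ C * (N * Q ^ (2 * N) * (Real.exp (-η * Y) * (W⁻¹) ^ N)) * R ^ N := by gcongr
    _ = C * Real.exp (-η * Y) * (N * (Q ^ (2 * N) * R ^ N * (W⁻¹) ^ N)) := by ring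
    _ ≤ C * Real.exp (-η * Y) * (N * (1/4) ^ N) := by gcongr

theorem taskR : TaskR := by
  intro _ _ hFEX hSG a ha m G hG Q k lam μ ω hQ hFE hd
  have hsg := hSG a ha m G hG Q k lam μ ω hQ hFE
  set L := ∑ j, lam j with hL
  set δ := (Real.pi / 2 - Real.pi * L) / 2 with hδ
  have hδ0 : 0 < δ := by
    have := Real.pi_pos
    rw [hδ]; nlinarith
  have hGd : Differentiable ℂ G := hG.1
  -- crossing the pole at 1
  obtain ⟨P, hP⟩ : ∃ P : Polynomial ℂ, ∀ u : ℝ, cexp u * (JJ m G (3/2) u - JJ m G (1/2) u) = P.eval (u:ℂ) := by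
    obtain ⟨C, hC0, hC⟩ := GG hd hsg 2
    obtain ⟨P, -, hP⟩ := cross (g := fun z => G z * Complex.Gamma z) (p := 1) (h := 1/2) (C := C) (δ := δ) hδ0 (by norm_num)
      (fun z h1 h2 => by
        apply DifferentiableAt.mul (hGd z)
        apply Complex.differentiableAt_Gamma
        intro n h
        have h3 := congrArg Complex.re h
        simp at h3
        have h4 : (0:ℝ) ≤ n := Nat.cast_nonneg n
        linarith)
      (fun z h1 h2 => by
        rw [norm_mul]
        exact hC z z (by rw [abs_le]; constructor <;> linarith) (by linarith) (by linarith) rfl) m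
    refine ⟨P, fun u => ?_⟩
    rw [← hP u, LI_one, LI_one]
    have e1 : (1:ℝ) + 1/2 = 3/2 := by norm_num
    have e2 : (1:ℝ) + -(1/2) = 1/2 := by norm_num
    rw [e1, e2]; ring
  -- crossing the pole at -k
  have hc : ∀ n : ℕ, ∃ c : ℂ, ∀ u : ℝ, JJ m G (-(n:ℝ) + 1/2) u - JJ m G (-((n+1 : ℕ):ℝ) + 1/2) u = c * cexp ((n:ℂ) * u) := by
    intro n
    obtain ⟨C, hC0, hC⟩ := GG hd hsg (n + 1)
    have hn0 : (0:ℝ) ≤ n := Nat.cast_nonneg n
    obtain ⟨R, hRc, hR⟩ := cross (g := gk m G n) (p := -(n:ℝ)) (h := 1/2) (C := 2 ^ m * C * 2 ^ n) (δ := δ) hδ0 (by norm_num)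
      (fun z h1 h2 => by
        unfold gk
        apply DifferentiableAt.mul
        · apply DifferentiableAt.div (hGd z) (by fun_prop)
          apply pow_ne_zero
          intro h
          have h3 := congrArg Complex.re h
          simp at h3
          linarith
        · apply DifferentiableAt.div
          · apply DifferentiableAt.comp (g := Complex.Gamma) (f := fun z : ℂ => z + ((n+1 : ℕ) : ℂ))
            · apply Complex.differentiableAt_Gamma
              intro j h
              have h3 := congrArg Complex.re h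
              simp at h3
              have h4 : (0:ℝ) ≤ j := Nat.cast_nonneg j
              linarith
            · fun_prop
          · fun_prop
          · apply Finset.prod_ne_zero_iff.2
            intro j hj h
            have h3 := congrArg Complex.re h
            simp at h3
            have h4 : (j:ℝ) + 1 ≤ n := by exact_mod_cast Finset.mem_range.1 hj
            linarith)
      (fun z h1 h2 => by
        unfold gk
        rw [norm_mul, norm_div, norm_div, norm_pow, norm_prod]
        have a1 : (1/2 : ℝ) ≤ ‖z - 1‖ := by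
          have h3 := Complex.abs_re_le_norm (z - 1)
          have h4 := neg_le_abs (z - 1).re
          simp at h3 h4
          linarith
        have a2 : (1/2 : ℝ) ^ n ≤ ∏ j ∈ Finset.range n, ‖z + j‖ := by
          have : (1/2 : ℝ) ^ n = ∏ _j ∈ Finset.range n, (1/2 : ℝ) := by simp
          rw [this]
          apply Finset.prod_le_prod (fun _ _ => by norm_num)
          intro j hj
          have h3 := Complex.abs_re_le_norm (z + j)
          have h4 := neg_le_abs (z + j).re
          have h5 : (j:ℝ) + 1 ≤ n := by exact_mod_cast Finset.mem_range.1 hj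
          simp at h3 h4
          linarith
        have a3 := hC z (z + ((n+1 : ℕ) : ℂ)) (by rw [abs_le]; constructor <;> linarith)
          (by simp; linarith) (by simp; linarith) (by simp)
        have a4 : (1/2 : ℝ) ^ m ≤ ‖z - 1‖ ^ m := pow_le_pow_left₀ (by norm_num) a1 m
        have p1 : (0:ℝ) < (1/2) ^ m := by positivity
        have p2 : (0:ℝ) < (1/2) ^ n := by positivity
        calc ‖G z‖ / ‖z - 1‖ ^ m * (‖Complex.Gamma (z + ((n+1 : ℕ) : ℂ))‖ / ∏ j ∈ Finset.range n, ‖z + j‖)
            ≤ ‖G z‖ / (1/2) ^ m * (‖Complex.Gamma (z + ((n+1 : ℕ) : ℂ))‖ / (1/2) ^ n) := by gcongr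
          _ = 2 ^ m * (‖G z‖ * ‖Complex.Gamma (z + ((n+1 : ℕ) : ℂ))‖) * 2 ^ n := by
              rw [one_div, inv_pow, inv_pow]; field_simp
          _ ≤ 2 ^ m * (C * Real.exp (-δ * |z.im|)) * 2 ^ n := by gcongr
          _ = _ := by ring) 1
    obtain ⟨c, hcc⟩ := hRc le_rfl
    refine ⟨c, fun u => ?_⟩
    have h6 := hR u
    rw [LI_gk m G n (Or.inl rfl), LI_gk m G n (Or.inr rfl), hcc, Polynomial.eval_C] at h6
    have e1 : -(n:ℝ) + -(1/2) = -((n+1 : ℕ):ℝ) + 1/2 := by push_cast; ring
    rw [e1, ← mul_sub] at h6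
    have e2 : cexp ((n:ℂ) * u) * cexp (-(n:ℂ) * u) = 1 := by
      rw [← Complex.exp_add]; ring_nf; simp
    calc _ = (cexp ((n:ℂ) * u) * cexp (-(n:ℂ) * u)) * (JJ m G (-(n:ℝ) + 1/2) u - JJ m G (-((n+1 : ℕ):ℝ) + 1/2) u) := by
          rw [e2, one_mul]
      _ = cexp ((n:ℂ) * u) * (cexp (-(n:ℂ) * u) * (JJ m G (-(n:ℝ) + 1/2) u - JJ m G (-((n+1 : ℕ):ℝ) + 1/2) u)) := by ring
      _ = _ := by rw [h6]; ring
  choose c hc using hc
  -- telescoping
  have htel : ∀ (K : ℕ) (u : ℝ), JJ m G (1/2) u = ∑ n ∈ Finset.range K, c n * cexp ((n:ℂ) * u) + JJ m G (-(K:ℝ) + 1/2) u := by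
    intro K u
    induction K with
    | zero => simp
    | succ K ih =>
      rw [Finset.sum_range_succ, ← hc K u, ih]; ring
  -- size
  set MM : ℕ → ℝ := fun K => ∫ t : ℝ, ‖Phi m G (((-(K:ℝ) + 1/2 : ℝ) : ℂ) + t * I)‖ with hMM
  have hMM0 : ∀ K, 0 ≤ MM K := fun K => integral_nonneg fun t => norm_nonneg _
  obtain ⟨C₁, K₀, hC₁, hline⟩ := phi_line hFEX ha hG hQ hFE hd
  have hMMb : ∀ K, K₀ ≤ K → MM K ≤ (C₁ * ∫ t : ℝ, Real.exp (-(2 * δ) * |t|)) * (K * Q ^ (2 * K) * (K.factorial : ℝ) ^ (2 * L - 1)) := by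
    intro K hK
    have h1 : MM K ≤ ∫ t : ℝ, C₁ * (K * Q ^ (2 * K) * (K.factorial : ℝ) ^ (2 * L - 1)) * Real.exp (-(2 * δ) * |t|) := by
      apply integral_mono_of_nonneg
      · exact Eventually.of_forall fun t => norm_nonneg _
      · exact (integrable_exp_abs (by linarith)).const_mul _
      · exact Eventually.of_forall fun t => hline K hK t
    rw [integral_const_mul] at h1
    refine h1.trans (le_of_eq (by ring))
  have hMMs : ∀ R : ℝ, 0 ≤ R → Summable fun K => MM K * R ^ K := fun R hR =>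
    MM_summable (mul_nonneg hC₁ (integral_nonneg fun t => (Real.exp_pos _).le)) (by linarith) hMM0 hMMb hR
  have hcn : ∀ n, ‖c n‖ ≤ MM n + MM (n+1) := by
    intro n
    have h1 := hc n 0
    simp only [Complex.ofReal_zero, mul_zero, Complex.exp_zero, mul_one] at h1
    rw [← h1]
    refine (norm_sub_le _ _).trans ?_
    have h2 := norm_JJ_le m G (-(n:ℝ) + 1/2) 0
    have h3 := norm_JJ_le m G (-((n+1 : ℕ):ℝ) + 1/2) 0
    rw [mul_zero, Real.exp_zero, one_mul] at h2 h3
    exact add_le_add h2 h3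
  have hcs : ∀ R : ℝ, 0 ≤ R → Summable fun n => ‖c n‖ * R ^ n := by
    intro R hR
    have hR1 : (0:ℝ) < R + 1 := by linarith
    have h1 := hMMs (R+1) hR1.le
    have h2 : Summable fun n => MM (n+1) * (R+1) ^ n := by
      have h3 := ((summable_nat_add_iff 1).2 h1).mul_right ((R+1)⁻¹)
      refine h3.congr fun n => ?_
      rw [pow_succ]; field_simp
    refine Summable.of_nonneg_of_le (fun n => by positivity) (fun n => ?_) (h1.add h2)
    have h4 : R ^ n ≤ (R+1) ^ n := pow_le_pow_left₀ hR (by linarith) n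
    calc ‖c n‖ * R ^ n ≤ (MM n + MM (n+1)) * (R+1) ^ n :=
          mul_le_mul (hcn n) h4 (by positivity) (add_nonneg (hMM0 _) (hMM0 _))
      _ = _ := by ring
  -- the entire function
  set H₀ : ℂ → ℂ := fun z => ∑' n : ℕ, c n * z ^ n with hH₀
  have hH₀d : Differentiable ℂ H₀ := by
    intro z
    have h1 : DifferentiableOn ℂ H₀ (Metric.ball 0 (‖z‖ + 1)) := by
      apply differentiableOn_tsum_of_summable_norm (hcs (‖z‖ + 1) (by positivity))
      · intro n; fun_prop
      · exact Metric.isOpen_ball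
      · intro n w hw
        rw [norm_mul, norm_pow]
        have : ‖w‖ ≤ ‖z‖ + 1 := by
          rw [Metric.mem_ball, dist_zero_right] at hw
          exact hw.le
        gcongr
    apply (h1 z (by rw [Metric.mem_ball, dist_zero_right]; linarith)).differentiableAt
    apply Metric.isOpen_ball.mem_nhds
    rw [Metric.mem_ball, dist_zero_right]; linarith
  have hff : ∀ x : ℝ, 0 < x → ff a x = (1 / (2 * Real.pi) : ℝ) • JJ m G (3/2) (Real.log x) := by
    intro x hx
    have hre : ∀ y : ℝ, (((3/2 : ℝ) : ℂ) + y * I).re = 3/2 := fun y => by simp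
    have hmel : ∀ y : ℝ, mellin (ff a) (((3/2 : ℝ) : ℂ) + y * I) = Phi m G (((3/2 : ℝ) : ℂ) + y * I) := by
      intro y
      rw [mellin_ff ha (by rw [hre])]
      unfold Phi
      rw [hG.2.2 _ (by rw [hre]; norm_num)]
      have hne : (((3/2 : ℝ) : ℂ) + y * I) - 1 ≠ 0 := by
        intro h
        have := congrArg Complex.re h
        simp at this
        norm_num at this
      field_simp
    have hint : VerticalIntegrable (mellin (ff a)) (3/2) := by
      unfold VerticalIntegrable
      obtain ⟨C, hC0, hC⟩ := GG hd hsg 2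
      have h1 : Integrable fun y : ℝ => Phi m G (((3/2 : ℝ) : ℂ) + y * I) := by
        apply vint (g := Phi m G) (a := 3/2) (b := 3/2) (C := 2 ^ m * C) (δ := δ) hδ0 _ _ le_rfl le_rfl
        · intro z h1 h2
          unfold Phi
          apply DifferentiableAt.mul
          · apply DifferentiableAt.div (hGd z) (by fun_prop)
            apply pow_ne_zero
            intro h
            have h3 := congrArg Complex.re h
            simp at h3
            linarith
          · apply Complex.differentiableAt_Gamma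
            intro n h
            have h3 := congrArg Complex.re h
            simp at h3
            have h4 : (0:ℝ) ≤ n := Nat.cast_nonneg n
            linarith
        · intro z h1 h2
          unfold Phi
          rw [norm_mul, norm_div, norm_pow]
          have a1 : (1/2 : ℝ) ≤ ‖z - 1‖ := by
            have h3 := Complex.abs_re_le_norm (z - 1)
            have h4 := le_abs_self (z - 1).re
            simp at h3 h4
            linarith
          have a4 : (1/2 : ℝ) ^ m ≤ ‖z - 1‖ ^ m := pow_le_pow_left₀ (by norm_num) a1 m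
          have p1 : (0:ℝ) < (1/2) ^ m := by positivity
          have a3 := hC z z (by rw [abs_le]; constructor <;> linarith) (by linarith) (by linarith) rfl
          calc ‖G z‖ / ‖z - 1‖ ^ m * ‖Complex.Gamma z‖ ≤ ‖G z‖ / (1/2) ^ m * ‖Complex.Gamma z‖ := by gcongr
            _ = 2 ^ m * (‖G z‖ * ‖Complex.Gamma z‖) := by rw [one_div, inv_pow]; field_simp
            _ ≤ 2 ^ m * (C * Real.exp (-δ * |z.im|)) := by gcongr
            _ = _ := by ring
      refine h1.congr (Eventually.of_forall fun y => ?_)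
      exact (hmel y).symm
    have h1 := mellinInv_mellin_eq (3/2) (ff a) hx (ff_mellinConvergent ha) hint
      ((ff_continuousOn ha).continuousAt (Ioi_mem_nhds hx))
    rw [← h1]
    unfold mellinInv JJ
    congr 1
    congr 1
    funext y
    rw [hmel y, smul_eq_mul, mul_comm]
    congr 1
    rw [Complex.cpow_def_of_ne_zero (by exact_mod_cast hx.ne'), ← Complex.ofReal_log hx.le]
    congr 1
    push_cast
    ring
  refine ⟨fun z => ((1 / (2 * Real.pi) : ℝ) : ℂ) * H₀ z, Polynomial.C ((1 / (2 * Real.pi) : ℝ) : ℂ) * P, hH₀d.const_mul _, ?_⟩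
  intro x hx
  have hxe : cexp ((Real.log x : ℝ) : ℂ) = x := by
    rw [← Complex.ofReal_exp, Real.exp_log hx]
  have hkey : JJ m G (1/2) (Real.log x) = H₀ x := by
    have h1 : Tendsto (fun K : ℕ => ∑ n ∈ Finset.range K, c n * (x:ℂ) ^ n) atTop (𝓝 (H₀ x)) := by
      have hs : Summable fun n : ℕ => c n * (x:ℂ) ^ n := by
        apply Summable.of_norm
        refine (hcs x hx.le).congr fun n => ?_
        rw [norm_mul, norm_pow, Complex.norm_real, Real.norm_of_nonneg hx.le]
      exact hs.hasSum.tendsto_sum_nat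
    have h2 : Tendsto (fun K : ℕ => JJ m G (-(K:ℝ) + 1/2) (Real.log x)) atTop (𝓝 0) := by
      have h3 : Tendsto (fun K : ℕ => MM K * x ^ K * Real.exp (-(1/2) * Real.log x)) atTop (𝓝 0) := by
        have := ((hMMs x hx.le).tendsto_atTop_zero).mul_const (Real.exp (-(1/2) * Real.log x))
        simpa using this
      apply squeeze_zero_norm (fun K => ?_) h3
      refine (norm_JJ_le m G _ _).trans (le_of_eq ?_)
      have e1 : Real.exp (-(-(K:ℝ) + 1/2) * Real.log x) = x ^ K * Real.exp (-(1/2) * Real.log x) := by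
        rw [show -(-(K:ℝ) + 1/2) * Real.log x = K * Real.log x + (-(1/2) * Real.log x) by ring, Real.exp_add,
          Real.exp_nat_mul, Real.exp_log hx]
      rw [e1]
      ring
    have h4 := h1.add h2
    rw [add_zero] at h4
    refine tendsto_nhds_unique ?_ h4
    have h5 : (fun K : ℕ => ∑ n ∈ Finset.range K, c n * (x:ℂ) ^ n + JJ m G (-(K:ℝ) + 1/2) (Real.log x)) =
        fun _ => JJ m G (1/2) (Real.log x) := by
      funext K
      rw [htel K (Real.log x)]
      congr 1
      apply Finset.sum_congr rfl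
      intro n _
      rw [Complex.exp_nat_mul, hxe]
    rw [h5]
    exact tendsto_const_nhds
  have h7 := hP (Real.log x)
  rw [hxe] at h7
  have hx0 : (x:ℂ) ≠ 0 := by exact_mod_cast hx.ne'
  have h8 : JJ m G (3/2) (Real.log x) = P.eval ((Real.log x : ℝ) : ℂ) / x + H₀ x := by
    rw [← hkey, ← h7]; field_simp; ring
  have h9 := hff x hx
  rw [h8] at h9
  have h10 : ff a x = ∑' n : ℕ, (if n = 0 then 0 else a n) * cexp (-(n * x)) := rfl
  rw [← h10, h9]
  rw [Polynomial.eval_mul, Polynomial.eval_C]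
  simp only [Complex.real_smul]
  push_cast
  ring

end Pool.Agent.H336R4.PF
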